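import Mathlib

/-! Gap between the two largest distance multiplicities: the correlation inequality. -/

namespace Pool.Agent.H118R2

open Finset

/-- Bernoulli type inequality with a remainder. -/
theorem bern (p : ℕ) (x y : ℝ) (hx : 0 ≤ x) (hy : 0 ≤ y) :
    (p + 1 : ℝ) * x ^ p * (y - x) ^ 2 ≤ y ^ (p + 2) - x ^ (p + 2) - (p + 2) * x ^ (p + 1) * (y - x) := by
  induction p with
  | zero => simp only [pow_zero, Nat.cast_zero, zero_add, pow_one]; nlinarith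
  | succ p ih =>
    have h0 : 0 ≤ y ^ (p + 2) - x ^ (p + 2) - (p + 2) * x ^ (p + 1) * (y - x) :=
      le_trans (by positivity) ih
    have h1 := mul_nonneg hy h0
    have e : y ^ (p + 1 + 2) - x ^ (p + 1 + 2) - ((p + 1 : ℕ) + 2) * x ^ (p + 1 + 1) * (y - x) =
        y * (y ^ (p + 2) - x ^ (p + 2) - (p + 2) * x ^ (p + 1) * (y - x)) +
          (p + 2) * x ^ (p + 1) * (y - x) ^ 2 := by
      push_cast; ring
    rw [e]
    push_cast
    nlinarith

/-- A sequence starting at `x` and vanishing somewhere before `ℓ` has a big drop at a big value. -/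
theorem exists_drop (a : ℕ → ℝ) (x : ℝ) (hx : 0 < x) (ha0 : a 0 = x) (ℓ : ℕ)
    (h0 : ∃ j, j ≤ ℓ ∧ a j = 0) :
    ∃ j < ℓ, x ≤ 2 * a j ∧ x ≤ 2 * ℓ * (a j - a (j + 1)) := by
  by_contra hcon
  push Not at hcon
  obtain ⟨j, hj, hj0⟩ := h0
  have hℓ : 0 < ℓ := by
    rcases Nat.eq_zero_or_pos ℓ with h | h
    · exfalso
      have : j = 0 := by omega
      rw [this, ha0] at hj0
      linarith
    · exact h
  have hℓ' : (0 : ℝ) < ℓ := by exact_mod_cast hℓ
  have key : ∀ i : ℕ, i ≤ ℓ → x - i * (x / (2 * ℓ)) ≤ a i := by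
    intro i
    induction i with
    | zero => intro _; simp [ha0]
    | succ i ih =>
      intro hi
      have h1 := ih (by omega)
      have h2 : (i : ℝ) * (x / (2 * ℓ)) ≤ x / 2 := by
        have : (i : ℝ) ≤ ℓ := by exact_mod_cast (by omega : i ≤ ℓ)
        calc (i : ℝ) * (x / (2 * ℓ)) ≤ ℓ * (x / (2 * ℓ)) := by gcongr
          _ = x / 2 := by field_simp
      have h3 := hcon i (by omega) (by linarith)
      have h4 : a i - a (i + 1) < x / (2 * ℓ) := by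
        rw [lt_div_iff₀ (by positivity)]
        linarith
      push_cast
      linarith
  have h1 := key j hj
  have h2 : (j : ℝ) * (x / (2 * ℓ)) ≤ x / 2 := by
    have : (j : ℝ) ≤ ℓ := by exact_mod_cast hj
    calc (j : ℝ) * (x / (2 * ℓ)) ≤ ℓ * (x / (2 * ℓ)) := by gcongr
      _ = x / 2 := by field_simp
  rw [hj0] at h1
  linarith

/-- sum over a shifted copy of the support -/
theorem sum_shift_le (D : Finset ℝ) (e : ℝ → ℝ) (he0 : ∀ x, 0 ≤ e x) (heD : ∀ x, x ∉ D → e x = 0)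
    (s : ℝ) (hs : s ≠ 0) : ∑ δ ∈ D, e (s * δ) ≤ ∑ δ ∈ D, e δ := by
  classical
  have h1 : ∑ δ ∈ D, e (s * δ) = ∑ x ∈ D.image (fun δ => s * δ), e x := by
    rw [sum_image]
    intro a _ b _ h
    exact mul_left_cancel₀ hs h
  rw [h1]
  calc ∑ x ∈ D.image (fun δ => s * δ), e x
      = ∑ x ∈ (D.image (fun δ => s * δ)).filter (· ∈ D), e x := by
        rw [sum_filter]
        refine sum_congr rfl fun x _ => ?_
        split_ifs with h
        · rfl
        · exact heD x h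
    _ ≤ ∑ x ∈ D, e x := by
        refine sum_le_sum_of_subset_of_nonneg ?_ fun x _ _ => he0 x
        intro x hx
        exact (mem_filter.mp hx).2

/-- **Correlation inequality.** -/
theorem correlation (D : Finset ℝ) (f : ℝ → ℝ) (hf0 : ∀ x, 0 ≤ f x) (hfD : ∀ x, x ∉ D → f x = 0)
    (p : ℕ) (hp : 1 ≤ p) (ℓ : ℕ) (hℓ : 1 ≤ ℓ) (t : ℝ) (ht : t ≠ 0)
    (hrun : ∀ δ ∈ D, ∃ j, j ≤ ℓ ∧ f (t ^ j * δ) = 0) :
    ∑ δ ∈ D, f δ ^ (p + 1) * f (t * δ) ≤
      (1 - 1 / ((p + 2) * 2 ^ (p + 2) * ℓ ^ 3)) * ∑ δ ∈ D, f δ ^ (p + 2) := by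
  classical
  set S := ∑ δ ∈ D, f δ ^ (p + 2) with hS
  let e : ℝ → ℝ := fun x => f x ^ p * (f (t * x) - f x) ^ 2
  have he0 : ∀ x, 0 ≤ e x := fun x => by
    have := hf0 x
    positivity
  have heD : ∀ x, x ∉ D → e x = 0 := fun x hx => by
    simp only [e, hfD x hx, zero_pow (by omega : p ≠ 0), zero_mul]
  set E := ∑ δ ∈ D, e δ with hE
  have hℓ' : (0 : ℝ) < ℓ := by exact_mod_cast hℓ
  -- S ≤ 2^(p+2) ℓ^3 E
  have hSE : S ≤ 2 ^ (p + 2) * ℓ ^ 3 * E := by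
    have h1 : ∀ δ ∈ D, f δ ^ (p + 2) ≤ 2 ^ (p + 2) * ℓ ^ 2 * ∑ j ∈ range ℓ, e (t ^ j * δ) := by
      intro δ hδ
      rcases (hf0 δ).eq_or_lt with h0 | h0
      · rw [← h0, zero_pow (by omega)]
        have : 0 ≤ ∑ j ∈ range ℓ, e (t ^ j * δ) := sum_nonneg fun j _ => he0 _
        positivity
      · obtain ⟨j, hj, h2, h3⟩ := exists_drop (fun j => f (t ^ j * δ)) (f δ) h0 (by simp) ℓ
          (hrun δ hδ)
        have h4 : f δ ^ (p + 2) ≤ 2 ^ (p + 2) * ℓ ^ 2 * e (t ^ j * δ) := by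
          have e1 : t * (t ^ j * δ) = t ^ (j + 1) * δ := by ring
          simp only [e]
          rw [e1]
          calc f δ ^ (p + 2) = f δ ^ p * f δ ^ 2 := pow_add _ _ _
            _ ≤ (2 * f (t ^ j * δ)) ^ p * (2 * ℓ * (f (t ^ j * δ) - f (t ^ (j + 1) * δ))) ^ 2 := by
                have h5 := hf0 (t ^ j * δ)
                exact mul_le_mul (pow_le_pow_left₀ h0.le h2 _) (pow_le_pow_left₀ h0.le h3 _)
                  (by positivity) (by positivity)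
            _ = _ := by ring
        refine h4.trans ?_
        refine mul_le_mul_of_nonneg_left ?_ (by positivity)
        exact single_le_sum (f := fun j => e (t ^ j * δ)) (fun i _ => he0 _) (mem_range.mpr hj)
    calc S ≤ ∑ δ ∈ D, 2 ^ (p + 2) * ℓ ^ 2 * ∑ j ∈ range ℓ, e (t ^ j * δ) := sum_le_sum h1
      _ = 2 ^ (p + 2) * ℓ ^ 2 * ∑ j ∈ range ℓ, ∑ δ ∈ D, e (t ^ j * δ) := by
          rw [← mul_sum, sum_comm]
      _ ≤ 2 ^ (p + 2) * ℓ ^ 2 * ∑ _j ∈ range ℓ, E := by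
          refine mul_le_mul_of_nonneg_left ?_ (by positivity)
          exact sum_le_sum fun j _ => sum_shift_le D e he0 heD _ (pow_ne_zero _ ht)
      _ = _ := by rw [sum_const, card_range, nsmul_eq_mul]; ring
  -- the main inequality
  have hmain : (p + 2 : ℝ) * ∑ δ ∈ D, f δ ^ (p + 1) * f (t * δ) ≤ (p + 2) * S - E := by
    have h1 : ∀ δ ∈ D, (p + 2 : ℝ) * (f δ ^ (p + 1) * f (t * δ)) ≤
        (p + 1) * f δ ^ (p + 2) + f (t * δ) ^ (p + 2) - e δ := by
      intro δ _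
      have h2 := bern p (f δ) (f (t * δ)) (hf0 _) (hf0 _)
      have h3 : 0 ≤ f δ ^ p * (f (t * δ) - f δ) ^ 2 := he0 δ
      have h4 : (0 : ℝ) ≤ p := Nat.cast_nonneg p
      simp only [e]
      have e1 : f δ ^ (p + 2) = f δ ^ (p + 1) * f δ := pow_succ _ _
      nlinarith [mul_nonneg h4 h3]
    have h2 : ∑ δ ∈ D, f (t * δ) ^ (p + 2) ≤ S :=
      sum_shift_le D (fun x => f x ^ (p + 2)) (fun x => pow_nonneg (hf0 x) _)
        (fun x hx => by simp only [hfD x hx]; exact zero_pow (by omega)) t ht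
    calc (p + 2 : ℝ) * ∑ δ ∈ D, f δ ^ (p + 1) * f (t * δ)
        = ∑ δ ∈ D, (p + 2 : ℝ) * (f δ ^ (p + 1) * f (t * δ)) := by rw [mul_sum]
      _ ≤ ∑ δ ∈ D, ((p + 1) * f δ ^ (p + 2) + f (t * δ) ^ (p + 2) - e δ) := sum_le_sum h1
      _ = (p + 1) * S + ∑ δ ∈ D, f (t * δ) ^ (p + 2) - E := by
          rw [sum_sub_distrib, sum_add_distrib, ← mul_sum]
      _ ≤ _ := by linarith
  have hp2 : (0 : ℝ) < p + 2 := by positivity
  have h5 : S / (2 ^ (p + 2) * ℓ ^ 3) ≤ E := by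
    rw [div_le_iff₀ (by positivity)]
    linarith
  have h6 : ∑ δ ∈ D, f δ ^ (p + 1) * f (t * δ) ≤ S - E / (p + 2) := by
    have : (p + 2 : ℝ) * (S - E / (p + 2)) = (p + 2) * S - E := by field_simp
    rw [← this] at hmain
    exact le_of_mul_le_mul_left hmain hp2
  calc ∑ δ ∈ D, f δ ^ (p + 1) * f (t * δ) ≤ S - E / (p + 2) := h6
    _ ≤ S - (S / (2 ^ (p + 2) * ℓ ^ 3)) / (p + 2) := by
        have : (S / (2 ^ (p + 2) * ℓ ^ 3)) / (p + 2) ≤ E / (p + 2) := by gcongr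
        linarith
    _ = _ := by field_simp

end Pool.Agent.H118R2
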