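import Mathlib

/-! Gap between the two largest distance multiplicities: unions of far apart sets. -/

namespace Pool.Agent.H118R2

open Finset Filter

/-- Number of ordered pairs of points of `P` at distance `t`. -/
noncomputable def mult {α : Type*} [MetricSpace α] (P : Finset α) (t : ℝ) : ℕ := by
  classical
  exact ((P ×ˢ P).filter fun p => dist p.1 p.2 = t).card

/-- Number of pairs in `P × Q` at distance `t`. -/
noncomputable def cross {α : Type*} [MetricSpace α] (P Q : Finset α) (t : ℝ) : ℕ := by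
  classical
  exact ((P ×ˢ Q).filter fun p => dist p.1 p.2 = t).card

theorem cross_comm {α : Type*} [MetricSpace α] (P Q : Finset α) (t : ℝ) :
    cross P Q t = cross Q P t := by
  classical
  unfold cross
  refine card_bij (fun p _ => (p.2, p.1)) ?_ ?_ ?_
  · rintro ⟨a, b⟩ h
    simp only [mem_filter, mem_product] at h ⊢
    exact ⟨⟨h.1.2, h.1.1⟩, by rw [dist_comm]; exact h.2⟩
  · rintro ⟨a, b⟩ _ ⟨c, d⟩ _ h
    simp only [Prod.mk.injEq] at h
    exact Prod.ext h.2 h.1
  · rintro ⟨a, b⟩ h
    simp only [mem_filter, mem_product] at h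
    exact ⟨(b, a), by simp only [mem_filter, mem_product]; exact ⟨⟨h.1.2, h.1.1⟩, by rw [dist_comm]; exact h.2⟩, rfl⟩

theorem mult_union {α : Type*} [MetricSpace α] [DecidableEq α] {P Q : Finset α}
    (h : Disjoint P Q) (t : ℝ) :
    mult (P ∪ Q) t = mult P t + mult Q t + 2 * cross P Q t := by
  classical
  have h1 : (((P ∪ Q) ×ˢ (P ∪ Q)).filter fun p => dist p.1 p.2 = t) =
      (((P ×ˢ P).filter fun p => dist p.1 p.2 = t) ∪ ((Q ×ˢ Q).filter fun p => dist p.1 p.2 = t)) ∪
      (((P ×ˢ Q).filter fun p => dist p.1 p.2 = t) ∪ ((Q ×ˢ P).filter fun p => dist p.1 p.2 = t)) := by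
    ext ⟨a, b⟩
    simp only [mem_filter, mem_product, mem_union]
    tauto
  have hd := Finset.disjoint_left.mp h
  have e1 : Disjoint ((P ×ˢ P).filter fun p => dist p.1 p.2 = t)
      ((Q ×ˢ Q).filter fun p => dist p.1 p.2 = t) := by
    rw [Finset.disjoint_left]
    rintro ⟨a, b⟩ h2 h3
    simp only [mem_filter, mem_product] at h2 h3
    exact hd h2.1.1 h3.1.1
  have e2 : Disjoint ((P ×ˢ Q).filter fun p => dist p.1 p.2 = t)
      ((Q ×ˢ P).filter fun p => dist p.1 p.2 = t) := by
    rw [Finset.disjoint_left]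
    rintro ⟨a, b⟩ h2 h3
    simp only [mem_filter, mem_product] at h2 h3
    exact hd h2.1.1 h3.1.1
  have e3 : Disjoint (((P ×ˢ P).filter fun p => dist p.1 p.2 = t) ∪
      ((Q ×ˢ Q).filter fun p => dist p.1 p.2 = t))
      (((P ×ˢ Q).filter fun p => dist p.1 p.2 = t) ∪ ((Q ×ˢ P).filter fun p => dist p.1 p.2 = t)) := by
    rw [Finset.disjoint_left]
    rintro ⟨a, b⟩ h2 h3
    simp only [mem_union, mem_filter, mem_product] at h2 h3
    rcases h2 with h2 | h2 <;> rcases h3 with h3 | h3
    · exact hd h2.1.2 h3.1.2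
    · exact hd h2.1.1 h3.1.1
    · exact hd h3.1.1 h2.1.1
    · exact hd h3.1.2 h2.1.2
  have h2 : mult (P ∪ Q) t = (((P ∪ Q) ×ˢ (P ∪ Q)).filter fun p => dist p.1 p.2 = t).card := by
    unfold mult
    congr!
  rw [h2, h1, card_union_of_disjoint e3, card_union_of_disjoint e1, card_union_of_disjoint e2]
  have h3 := cross_comm P Q t
  have h4 : mult P t = ((P ×ˢ P).filter fun p => dist p.1 p.2 = t).card := by
    unfold mult; congr!
  have h5 : mult Q t = ((Q ×ˢ Q).filter fun p => dist p.1 p.2 = t).card := by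
    unfold mult; congr!
  have h6 : cross P Q t = ((P ×ˢ Q).filter fun p => dist p.1 p.2 = t).card := by
    unfold cross; congr!
  have h7 : cross Q P t = ((Q ×ˢ P).filter fun p => dist p.1 p.2 = t).card := by
    unfold cross; congr!
  omega

theorem mult_image_isometry {α β : Type*} [MetricSpace α] [MetricSpace β] [DecidableEq β]
    (e : α → β) (c : ℝ) (hc : c ≠ 0) (he : ∀ x y, dist (e x) (e y) = c * dist x y)
    (P : Finset α) (t : ℝ) : mult (P.image e) t = mult P (t / c) := by
  classical
  have hinj : Function.Injective e := by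
    intro x y h
    have := he x y
    rw [h, dist_self] at this
    rcases mul_eq_zero.mp this.symm with h | h
    · exact absurd h hc
    · exact dist_eq_zero.mp h
  unfold mult
  symm
  refine Finset.card_bij (fun p _ => (e p.1, e p.2)) ?_ ?_ ?_
  · rintro ⟨a, b⟩ h
    simp only [mem_filter, mem_product] at h ⊢
    refine ⟨⟨mem_image_of_mem _ h.1.1, mem_image_of_mem _ h.1.2⟩, ?_⟩
    rw [he, h.2]
    field_simp
  · rintro ⟨a, b⟩ _ ⟨c, d⟩ _ h
    simp only [Prod.mk.injEq] at h
    exact Prod.ext (hinj h.1) (hinj h.2)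
  · rintro ⟨a, b⟩ h
    simp only [mem_filter, mem_product, mem_image] at h
    obtain ⟨⟨⟨a', ha', rfl⟩, ⟨b', hb', rfl⟩⟩, hd⟩ := h
    refine ⟨(a', b'), ?_, rfl⟩
    simp only [mem_filter, mem_product]
    refine ⟨⟨ha', hb'⟩, ?_⟩
    rw [← hd, he]
    field_simp

theorem mult_le_sq {α : Type*} [MetricSpace α] (P : Finset α) (t : ℝ) :
    mult P t ≤ P.card * P.card := by
  classical
  unfold mult
  refine (card_le_card (filter_subset _ _)).trans ?_
  rw [card_product]

theorem mult_eq_zero {α : Type*} [MetricSpace α] (P : Finset α) (t : ℝ)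
    (h : ∀ p ∈ P, ∀ q ∈ P, dist p q ≠ t) : mult P t = 0 := by
  classical
  unfold mult
  rw [card_eq_zero, filter_eq_empty_iff]
  rintro ⟨a, b⟩ hab
  rw [mem_product] at hab
  exact h a hab.1 b hab.2

theorem cross_eq_zero {α : Type*} [MetricSpace α] (P Q : Finset α) (t : ℝ)
    (h : ∀ p ∈ P, ∀ q ∈ Q, dist p q ≠ t) : cross P Q t = 0 := by
  classical
  unfold cross
  rw [card_eq_zero, filter_eq_empty_iff]
  rintro ⟨a, b⟩ hab
  rw [mem_product] at hab
  exact h a hab.1 b hab.2

theorem cross_le {α : Type*} [MetricSpace α] (P Q : Finset α) (t : ℝ)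
    (h : ∀ p ∈ P, ∀ q ∈ Q, ∀ q' ∈ Q, dist p q = dist p q' → q = q') : cross P Q t ≤ P.card := by
  classical
  unfold cross
  refine card_le_card_of_injOn (fun p => p.1) ?_ ?_
  · rintro ⟨a, b⟩ hab
    simp only [coe_filter, mem_product, Set.mem_ofPred_eq] at hab
    exact hab.1.1
  · rintro ⟨a, b⟩ hab ⟨c, d⟩ hcd hac
    simp only [coe_filter, mem_product, Set.mem_ofPred_eq] at hab hcd hac
    subst hac
    exact Prod.ext rfl (h a hab.1.1 b hab.1.2 d hcd.1.2 (hab.2.trans hcd.2.symm))

/-- A far and generic translation. -/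
theorem exists_far (P Q : Finset ℂ) (R : ℝ) : ∃ v : ℂ,
    (∀ p ∈ P, ∀ q ∈ Q, R < dist (p + v) q) ∧
    (∀ p ∈ P, ∀ q ∈ Q, ∀ q' ∈ Q, dist (p + v) q = dist (p + v) q' → q = q') := by
  have h1 : ∀ᶠ s : ℝ in atTop, ∀ p ∈ P, ∀ q ∈ Q, R < dist (p + (⟨s, s ^ 2⟩ : ℂ)) q := by
    rw [eventually_all_finset]
    intro p _
    rw [eventually_all_finset]
    intro q _
    filter_upwards [eventually_gt_atTop (R + |(p - q).re|)] with s hs
    rw [Complex.dist_eq]
    have h2 := Complex.abs_re_le_norm (p + (⟨s, s ^ 2⟩ : ℂ) - q)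
    have h3 : (p + (⟨s, s ^ 2⟩ : ℂ) - q).re = s + (p - q).re := by
      simp only [Complex.sub_re, Complex.add_re]; ring
    rw [h3] at h2
    have h4 := le_abs_self (s + (p - q).re)
    have h5 := neg_abs_le (p - q).re
    linarith
  have h2 : ∀ᶠ s : ℝ in atTop, ∀ p ∈ P, ∀ q ∈ Q, ∀ q' ∈ Q,
      dist (p + (⟨s, s ^ 2⟩ : ℂ)) q = dist (p + (⟨s, s ^ 2⟩ : ℂ)) q' → q = q' := by
    rw [eventually_all_finset]
    intro p _
    rw [eventually_all_finset]
    intro q _
    rw [eventually_all_finset]
    intro q' _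
    by_cases hqq : q = q'
    · exact Eventually.of_forall fun s _ => hqq
    -- polynomial
    let pol : Polynomial ℝ := Polynomial.C (2 * (q' - q).im) * Polynomial.X ^ 2 +
      Polynomial.C (2 * (q' - q).re) * Polynomial.X +
      Polynomial.C (Complex.normSq (p - q) - Complex.normSq (p - q'))
    have hpol : pol ≠ 0 := by
      intro h
      apply hqq
      have c2 : pol.coeff 2 = 2 * (q' - q).im := by
        simp only [pol, Polynomial.coeff_add, Polynomial.coeff_C_mul, Polynomial.coeff_X_pow,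
          Polynomial.coeff_X, Polynomial.coeff_C]
        norm_num
      have c1 : pol.coeff 1 = 2 * (q' - q).re := by
        simp only [pol, Polynomial.coeff_add, Polynomial.coeff_C_mul, Polynomial.coeff_X_pow,
          Polynomial.coeff_X, Polynomial.coeff_C]
        norm_num
      rw [h, Polynomial.coeff_zero] at c1 c2
      have e1 : (q' - q).re = 0 := by linarith
      have e2 : (q' - q).im = 0 := by linarith
      have e3 : q' - q = 0 := Complex.ext e1 e2
      exact (sub_eq_zero.mp e3).symm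
    filter_upwards [Polynomial.eventually_atTop_not_isRoot pol hpol] with s hs
    intro hd
    exfalso
    apply hs
    rw [Complex.dist_eq, Complex.dist_eq] at hd
    have h3 := congrArg (· ^ 2) hd
    simp only [← Complex.normSq_eq_norm_sq] at h3
    simp only [Polynomial.IsRoot, pol, Polynomial.eval_add, Polynomial.eval_mul,
      Polynomial.eval_C, Polynomial.eval_pow, Polynomial.eval_X]
    simp only [Complex.normSq_apply, Complex.sub_re, Complex.sub_im, Complex.add_re,
      Complex.add_im] at h3 ⊢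
    linarith
  obtain ⟨s, hs1, hs2⟩ := (h1.and h2).exists
  exact ⟨_, hs1, hs2⟩

/-- Far union of a family of planar sets. -/
theorem far_union {ι : Type*} (s : Finset ι) (P : ι → Finset ℂ) (R0 : ℝ) (hR : 0 ≤ R0)
    (hR0 : ∀ i ∈ s, ∀ p ∈ P i, ∀ q ∈ P i, dist p q ≤ R0) (m : ℕ) (hm : ∀ i ∈ s, (P i).card ≤ m) :
    ∃ Q : Finset ℂ, Q.card = ∑ i ∈ s, (P i).card ∧
      (∀ t ≤ R0, mult Q t = ∑ i ∈ s, mult (P i) t) ∧ ∀ t, R0 < t → mult Q t ≤ 2 * m := by
  classical
  induction s using Finset.induction_on with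
  | empty =>
    refine ⟨∅, by simp, fun t _ => ?_, fun t _ => ?_⟩
    · simp [mult]
    · simp [mult]
  | insert a s ha ih =>
    obtain ⟨Q, hQ1, hQ2, hQ3⟩ := ih (fun i hi => hR0 i (mem_insert_of_mem hi))
      (fun i hi => hm i (mem_insert_of_mem hi))
    set R : ℝ := R0 + ∑ x ∈ Q ×ˢ Q, dist x.1 x.2 with hRdef
    have hRR : R0 ≤ R := by
      have : 0 ≤ ∑ x ∈ Q ×ˢ Q, dist x.1 x.2 := sum_nonneg fun _ _ => dist_nonneg
      linarith
    have hQR : ∀ p ∈ Q, ∀ q ∈ Q, dist p q ≤ R := by
      intro p hp q hq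
      have := single_le_sum (f := fun x : ℂ × ℂ => dist x.1 x.2) (fun _ _ => dist_nonneg)
        (mem_product.mpr ⟨hp, hq⟩ : (p, q) ∈ Q ×ˢ Q)
      simp only at this
      linarith
    obtain ⟨v, hv1, hv2⟩ := exists_far (P a) Q R
    set P' := (P a).image (fun x => x + v) with hP'
    have hP'dist : ∀ p ∈ P', ∀ q ∈ P', dist p q ≤ R0 := by
      intro p hp q hq
      obtain ⟨p', hp', rfl⟩ := mem_image.mp hp
      obtain ⟨q', hq', rfl⟩ := mem_image.mp hq
      simpa using hR0 a (mem_insert_self _ _) p' hp' q' hq'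
    have hP'card : P'.card = (P a).card := card_image_of_injective _ (add_left_injective v)
    have hfar : ∀ p ∈ P', ∀ q ∈ Q, R < dist p q := by
      intro p hp q hq
      obtain ⟨p', hp', rfl⟩ := mem_image.mp hp
      exact hv1 p' hp' q hq
    have hgen : ∀ p ∈ P', ∀ q ∈ Q, ∀ q' ∈ Q, dist p q = dist p q' → q = q' := by
      intro p hp q hq
      obtain ⟨p', hp', rfl⟩ := mem_image.mp hp
      exact hv2 p' hp' q hq
    have hdisj : Disjoint P' Q := by
      rw [Finset.disjoint_left]
      intro x hx hx'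
      have := hfar x hx x hx'
      rw [dist_self] at this
      linarith
    have hmP' : ∀ t, mult P' t = mult (P a) t := by
      intro t
      rw [hP', mult_image_isometry (fun x => x + v) 1 one_ne_zero (by intro x y; simp) (P a) t,
        div_one]
    refine ⟨P' ∪ Q, ?_, ?_, ?_⟩
    · rw [card_union_of_disjoint hdisj, sum_insert ha, hP'card, hQ1]
    · intro t ht
      rw [mult_union hdisj, sum_insert ha, hmP', hQ2 t ht, cross_eq_zero]
      · ring
      · intro p hp q hq h
        have := hfar p hp q hq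
        linarith
    · intro t ht
      rw [mult_union hdisj]
      have h1 : mult P' t = 0 := mult_eq_zero _ _ fun p hp q hq h => by
        have := hP'dist p hp q hq
        linarith
      rw [h1]
      rcases le_or_gt t R with htR | htR
      · rw [cross_eq_zero P' Q t (fun p hp q hq h => by
          have := hfar p hp q hq
          linarith)]
        have := hQ3 t ht
        omega
      · rw [mult_eq_zero Q t (fun p hp q hq h => by
          have := hQR p hp q hq
          linarith)]
        have h2 := cross_le P' Q t hgen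
        have h3 := hm a (mem_insert_self _ _)
        omega

end Pool.Agent.H118R2
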