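import Mathlib
import Pool.Agent.TeamU.G4

/-! Gap between the two largest distance multiplicities: geometric progressions of squared
distances in number fields are short. -/

open NumberField IsDedekindDomain Module

namespace Pool.Agent.H118R2

variable {K : Type} [Field K] [NumberField K]

theorem one_le_prod (x : K) (hx : IsIntegral ℤ x) (h0 : x ≠ 0) :
    1 ≤ ∏ σ : K →ₐ[ℚ] ℂ, ‖σ x‖ := by
  obtain ⟨m, hm⟩ : ∃ m : ℤ, Algebra.norm ℚ x = (m : ℚ) := by
    refine ⟨Algebra.norm ℤ (⟨x, hx⟩ : 𝓞 K), ?_⟩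
    exact (Algebra.coe_norm_int (⟨x, hx⟩ : 𝓞 K)).symm
  have h1 : (Algebra.norm ℚ x) ≠ 0 := by
    rw [Algebra.norm_ne_zero_iff]
    exact h0
  have h3 := Algebra.norm_eq_prod_embeddings ℚ ℂ x
  rw [eq_ratCast] at h3
  rw [← norm_prod, ← h3, hm]
  rw [hm] at h1
  have h5 : ‖(((m : ℤ) : ℚ) : ℂ)‖ = |(m : ℝ)| := by
    rw [Rat.cast_intCast, Complex.norm_intCast]
  rw [h5]
  have h6 : m ≠ 0 := by
    rintro rfl
    exact h1 (by simp)
  have := Int.one_le_abs h6
  exact_mod_cast this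

theorem one_le_norm_mul (x : K) (hx : IsIntegral ℤ x) (h0 : x ≠ 0) (B : ℝ)
    (hb : ∀ φ : K →+* ℂ, ‖φ x‖ ≤ B) (φ : K →+* ℂ) : B ≤ ‖φ x‖ * B ^ finrank ℚ K := by
  classical
  have h1 := one_le_prod x hx h0
  let σ0 : K →ₐ[ℚ] ℂ := RingHom.equivRatAlgHom K ℂ φ
  have hσ0 : ∀ y, σ0 y = φ y := fun y => rfl
  have hB : 0 ≤ B := (norm_nonneg _).trans (hb φ)
  rw [← Finset.mul_prod_erase Finset.univ _ (Finset.mem_univ σ0)] at h1
  have h2 : ∏ σ ∈ Finset.univ.erase σ0, ‖σ x‖ ≤ B ^ (finrank ℚ K - 1) := by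
    calc ∏ σ ∈ Finset.univ.erase σ0, ‖σ x‖ ≤ ∏ _σ ∈ Finset.univ.erase σ0, B :=
          Finset.prod_le_prod (fun _ _ => norm_nonneg _) (fun σ _ => hb σ.toRingHom)
      _ = _ := by
          rw [Finset.prod_const, Finset.card_erase_of_mem (Finset.mem_univ _), Finset.card_univ,
            AlgHom.card]
  have hn : 0 < finrank ℚ K := finrank_pos
  have h3 : 1 ≤ ‖φ x‖ * B ^ (finrank ℚ K - 1) := by
    rw [hσ0] at h1
    exact h1.trans (mul_le_mul_of_nonneg_left h2 (norm_nonneg _))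
  calc B = 1 * B := (one_mul B).symm
    _ ≤ (‖φ x‖ * B ^ (finrank ℚ K - 1)) * B := mul_le_mul_of_nonneg_right h3 hB
    _ = ‖φ x‖ * B ^ finrank ℚ K := by
      rw [mul_assoc, ← pow_succ]
      congr 2
      omega

/-- A geometric progression `z, z g, …, z g ^ k` whose first and last element are integral with
bounded conjugates, with totally positive ratio `g ≠ 1`, is short. -/
theorem run_bound (z g : K) (k : ℕ) (B : ℝ) (hz : IsIntegral ℤ z)
    (hzk : IsIntegral ℤ (z * g ^ k)) (hz0 : z ≠ 0) (hg0 : g ≠ 0) (hg1 : g ≠ 1)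
    (hpos : ∀ φ : K →+* ℂ, ∃ r : ℝ, 0 < r ∧ φ g = r)
    (hb : ∀ φ : K →+* ℂ, ‖φ z‖ ≤ B) (hbk : ∀ φ : K →+* ℂ, ‖φ (z * g ^ k)‖ ≤ B) :
    (2 : ℝ) ^ k ≤ B ^ finrank ℚ K := by
  obtain ⟨φ0⟩ : Nonempty (K →+* ℂ) := inferInstance
  have hB : 0 ≤ B := (norm_nonneg _).trans (hb φ0)
  by_cases hgi : IsIntegral ℤ g
  · -- integral ratio
    obtain ⟨φ, hφ⟩ : ∃ φ : K →+* ℂ, 1 ≤ ‖φ (g - 1)‖ := by
      by_contra hcon
      push Not at hcon
      have := Pool.Agent.TeamU.eq_zero_of_small (g - 1) (hgi.sub isIntegral_one) hcon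
      exact hg1 (sub_eq_zero.mp this)
    obtain ⟨r, hr0, hr⟩ := hpos φ
    have hr2 : 2 ≤ r := by
      rw [map_sub, map_one, hr] at hφ
      have h1 : ‖((r : ℂ) - 1)‖ = |r - 1| := by
        rw [← Complex.ofReal_one, ← Complex.ofReal_sub, Complex.norm_real, Real.norm_eq_abs]
      rw [h1] at hφ
      rcases le_abs.mp hφ with h | h
      · linarith
      · linarith
    have h1 : ‖φ (z * g ^ k)‖ = ‖φ z‖ * r ^ k := by
      rw [map_mul, map_pow, norm_mul, norm_pow, hr, Complex.norm_real, Real.norm_of_nonneg hr0.le]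
    have h2 := hbk φ
    rw [h1] at h2
    have h3 := one_le_norm_mul z hz hz0 B hb φ
    have h4 : (2 : ℝ) ^ k ≤ r ^ k := pow_le_pow_left₀ (by norm_num) hr2 k
    have hφz : 0 < ‖φ z‖ := by
      rw [norm_pos_iff]
      simpa using hz0
    have h5 : ‖φ z‖ * 2 ^ k ≤ ‖φ z‖ * B ^ finrank ℚ K :=
      (mul_le_mul_of_nonneg_left h4 hφz.le).trans (h2.trans h3)
    exact le_of_mul_le_mul_left h5 hφz
  · -- non-integral ratio
    obtain ⟨v, hv⟩ : ∃ v : HeightOneSpectrum (𝓞 K), 1 < v.valuation K g := by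
      by_contra hcon
      push Not at hcon
      exact hgi (Pool.Agent.TeamU.isIntegral_of_val hcon)
    have h1 : v.valuation K (z * g ^ k) ≤ 1 := v.valuation_le_one (K := K) ⟨_, hzk⟩
    rw [map_mul, map_pow] at h1
    have hvz : v.valuation K z ≠ 0 := (Valuation.ne_zero_iff _).mpr hz0
    have hvg : v.valuation K g ≠ 0 := (Valuation.ne_zero_iff _).mpr hg0
    obtain ⟨b, hb'⟩ : ∃ b : ℤ, v.valuation K z = WithZero.exp b :=
      ⟨_, (WithZero.exp_log hvz).symm⟩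
    obtain ⟨a, ha⟩ : ∃ a : ℤ, v.valuation K g = WithZero.exp a :=
      ⟨_, (WithZero.exp_log hvg).symm⟩
    rw [ha, ← WithZero.exp_zero, WithZero.exp_lt_exp] at hv
    rw [ha, hb', ← WithZero.exp_nsmul, ← WithZero.exp_add, ← WithZero.exp_zero,
      WithZero.exp_le_exp] at h1
    have h2 : b ≤ -(k : ℤ) := by
      rw [nsmul_eq_mul] at h1
      nlinarith
    let z' : 𝓞 K := ⟨z, hz⟩
    have h3 : z' ∈ v.asIdeal ^ k := by
      rw [← HeightOneSpectrum.intValuation_le_pow_iff_mem]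
      have h5 := HeightOneSpectrum.valuation_of_algebraMap (K := K) v z'
      have h6 : v.valuation K z = v.intValuation z' := h5
      rw [← h6, hb', WithZero.exp_le_exp]
      exact h2
    have h4 : v.asIdeal ^ k ∣ Ideal.span {z'} := Ideal.dvd_span_singleton.mpr h3
    have h5 := map_dvd Ideal.absNorm h4
    rw [map_pow] at h5
    have h6 : Ideal.absNorm (Ideal.span {z'}) ≠ 0 := by
      rw [Ne, Ideal.absNorm_eq_zero_iff, Ideal.span_singleton_eq_bot]
      intro h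
      exact hz0 (congrArg (algebraMap (𝓞 K) K) h |>.trans (map_zero _))
    have h7 := Nat.le_of_dvd (Nat.pos_of_ne_zero h6) h5
    have h8 := Pool.Agent.TeamU.absNorm_span_le z' B (fun w => by
      rw [← InfinitePlace.norm_embedding_eq]
      exact hb _)
    have h9 : 2 ≤ Ideal.absNorm v.asIdeal := by
      have hne1 : Ideal.absNorm v.asIdeal ≠ 1 := by
        rw [Ne, Ideal.absNorm_eq_one_iff]
        exact v.isPrime.ne_top
      have hne0 : Ideal.absNorm v.asIdeal ≠ 0 := by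
        rw [Ne, Ideal.absNorm_eq_zero_iff]
        exact v.ne_bot
      omega
    have h10 : 2 ^ k ≤ Ideal.absNorm v.asIdeal ^ k := Nat.pow_le_pow_left h9 k
    calc (2 : ℝ) ^ k ≤ (Ideal.absNorm (Ideal.span {z'}) : ℝ) := by exact_mod_cast h10.trans h7
      _ ≤ _ := h8

end Pool.Agent.H118R2
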