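import Mathlib
import Pool.Agent.TeamU.G4
import Pool.Agent.H118R2.Gap3

/-! The construction of `Pool.Agent.TeamU.G4` (planar sets with many unit distances from a totally
real field with 2 totally split), with the arithmetic structure of the set recorded. The proof is
the one of `Pool.Agent.TeamU.G_one`. -/

open NumberField IsDedekindDomain Module
open Pool.Agent.TeamU

namespace Pool.Agent.H118R2

section main
variable {L K : Type} [Field L] [NumberField L] [Field K] [NumberField K] [Algebra L K]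

/-- data over one field -/
theorem G_one' (hr : IsTotallyReal L) (h2 : TwoSplit L) (hK : finrank L K = 2)
    (z : K) (hz : z ^ 2 = -7) (e : ℕ) (hd : √|(discr K : ℝ)| < ((2 : ℝ) ^ e) ^ finrank ℚ L)
    (r : ℕ) :
    ∃ (A : Finset K) (Q : ℕ → Finset K),
      (∀ a ∈ A, ∀ φ : K →+* ℂ, ‖φ a‖ = 1) ∧ 0 ∈ Q 0 ∧
      (∀ R, ∀ x ∈ Q R, ∀ a ∈ A, x + a ∈ Q (R + 1)) ∧
      (r + 1) ^ finrank ℚ L ≤ A.card * (3 * 2 ^ e * (4 * 2 ^ e + 1) ^ 4) ^ finrank ℚ L ∧
      (∀ M, (Q M).card ≤ ((4 * (M * 2 ^ r * 2 ^ e) + 1) ^ 4) ^ finrank ℚ L) ∧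
      ∃ (a0 : K) (nrm : K → K), a0 ≠ 0 ∧ (∀ φ : K →+* ℂ, ‖φ a0‖ ^ 2 ≤ 2 ^ r * 2 ^ e) ∧
        (∀ x y, nrm (x * y) = nrm x * nrm y) ∧
        (∀ (φ : K →+* ℂ) (x : K), φ (nrm x) = ((‖φ x‖ ^ 2 : ℝ) : ℂ)) ∧
        (∀ x, IsIntegral ℤ x → IsIntegral ℤ (nrm x)) ∧
        (∀ M, ∀ x ∈ Q M, IsIntegral ℤ (x * a0) ∧ ∀ φ : K →+* ℂ, ‖φ x‖ ≤ M) := by
  classical
  obtain ⟨σ, hσσ, hσ, hnorm, -⟩ := exists_conj (M := L) (E := K) hK
  set d := finrank ℚ L with hddef
  have hKd : finrank ℚ K = 2 * d := by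
    rw [← finrank_mul_finrank ℚ L K, hK, mul_comm]
  -- dyadic primes
  let V : Type := {v : HeightOneSpectrum (𝓞 L) // (2 : 𝓞 L) ∈ v.asIdeal}
  have hdpos : 0 < d := finrank_pos
  have hVfin : Finite V := by
    have h1 := card_dyadic (M := L) h2
    have h3 : {v : HeightOneSpectrum (𝓞 L) | (2 : 𝓞 L) ∈ v.asIdeal}.Finite := by
      by_contra h
      rw [Set.Infinite.ncard h] at h1
      omega
    exact h3
  have hVft : Fintype V := Fintype.ofFinite V
  have hVcard : Fintype.card V = d := by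
    rw [← Nat.card_eq_fintype_card]
    exact card_dyadic (M := L) h2
  have hPQ := fun v : V => primes_over_two hr h2 hK z hz v.1 v.2
  choose P Q' hne hP hQ' hcP hcQ hval using hPQ
  -- the primes indexed by `V × Bool`
  let R : V × Bool → HeightOneSpectrum (𝓞 K) := fun i => if i.2 then P i.1 else Q' i.1
  have hRover : ∀ i, Over (R i) i.1.1 := by
    rintro ⟨v, b⟩
    cases b
    · exact hQ' v
    · exact hP v
  have hRinj : Function.Injective R := by
    rintro ⟨v, b⟩ ⟨v', b'⟩ h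
    have h1 : v = v' := by
      apply Subtype.ext
      refine over_unique (P := R (v, b)) (hRover (v, b)) ?_
      rw [h]
      exact hRover (v', b')
    subst h1
    cases b <;> cases b'
    · rfl
    · exact absurd h.symm (hne v)
    · exact absurd h (hne v)
    · rfl
  have hRcard : ∀ i, Nat.card (𝓞 K ⧸ (R i).asIdeal) = 2 := by
    rintro ⟨v, b⟩
    cases b
    · exact hcQ v
    · exact hcP v
  -- exponents
  let ex : (V → ℕ) → V × Bool → ℕ := fun k i => if i.2 then k i.1 else r - k i.1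
  let box : Finset (V → ℕ) := Fintype.piFinset fun _ : V => Finset.range (r + 1)
  have hboxcard : box.card = (r + 1) ^ d := by
    simp only [box, Fintype.card_piFinset, Finset.card_range, Finset.prod_const,
      Finset.card_univ, hVcard]
  have hbox : ∀ k ∈ box, ∀ v, k v ≤ r := by
    intro k hk v
    have := Fintype.mem_piFinset.mp hk v
    rw [Finset.mem_range] at this
    omega
  have hsumex : ∀ k ∈ box, ∑ i, ex k i = r * d := by
    intro k hk
    rw [Fintype.sum_prod_type]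
    simp only [Fintype.sum_bool, ex, if_true, Bool.false_eq_true, if_false]
    calc ∑ v, (k v + (r - k v)) = ∑ _v : V, r := by
          refine Finset.sum_congr rfl fun v _ => ?_
          have := hbox k hk v
          omega
      _ = r * d := by
          rw [Finset.sum_const, Finset.card_univ, hVcard, smul_eq_mul, mul_comm]
  let I : (V → ℕ) → Ideal (𝓞 K) := fun k => ∏ i, (R i).asIdeal ^ ex k i
  have hIne : ∀ k, I k ≠ ⊥ := by
    intro k
    rw [← Ideal.zero_eq_bot]
    refine Finset.prod_ne_zero_iff.mpr fun i _ => pow_ne_zero _ ?_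
    rw [Ideal.zero_eq_bot]
    exact (R i).ne_bot
  -- the size
  let c : ℝ := √(2 ^ r * 2 ^ e)
  have hc0 : 0 ≤ c := Real.sqrt_nonneg _
  have hc2 : c ^ 2 = 2 ^ r * 2 ^ e := Real.sq_sqrt (by positivity)
  have hc1 : 1 ≤ c := by
    rw [show (1 : ℝ) = √1 by simp]
    apply Real.sqrt_le_sqrt
    have h1 : (1 : ℝ) ≤ 2 ^ r := one_le_pow₀ (by norm_num)
    have h2 : (1 : ℝ) ≤ 2 ^ e := one_le_pow₀ (by norm_num)
    nlinarith
  have hcpow : c ^ finrank ℚ K = ((2 : ℝ) ^ r) ^ d * ((2 : ℝ) ^ e) ^ d := by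
    rw [hKd, pow_mul, hc2, mul_pow]
  have hexists : ∀ k ∈ box, ∃ x ∈ I k, x ≠ 0 ∧ ∀ w : InfinitePlace K, w (x : K) < c := by
    intro k hk
    obtain ⟨x, hx, hx0, hxw⟩ := exists_small_mem_ideal K (I k) (hIne k) ⟨c, hc0⟩ (by
      show _ < c ^ finrank ℚ K
      rw [hcpow]
      simp only [I]
      rw [absNorm_prod R hRcard, hsumex k hk]
      push_cast
      rw [← pow_mul]
      have : (0 : ℝ) < 2 ^ (r * d) := by positivity
      exact (mul_lt_mul_iff_right₀ this).mpr hd)
    exact ⟨x, hx, hx0, fun w => hxw w⟩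
  -- choose the elements
  let a : (V → ℕ) → 𝓞 K := fun k =>
    if h : k ∈ box then (hexists k h).choose else 1
  have ha : ∀ k ∈ box, a k ∈ I k ∧ a k ≠ 0 ∧ ∀ w : InfinitePlace K, w (a k : K) < c := by
    intro k hk
    have : a k = (hexists k hk).choose := by simp only [a, dif_pos hk]
    rw [this]
    exact (hexists k hk).choose_spec
  have haφ : ∀ k ∈ box, ∀ φ : K →+* ℂ, ‖φ (a k : K)‖ ≤ c := by
    intro k hk φ
    have := (ha k hk).2.2 (InfinitePlace.mk φ)
    rw [InfinitePlace.apply] at this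
    exact this.le
  have haK0 : ∀ k ∈ box, (a k : K) ≠ 0 := by
    intro k hk h
    exact (ha k hk).2.1 (RingOfIntegers.ext (h.trans (map_zero _).symm))
  have hmem : ∀ k ∈ box, ∀ i, a k ∈ (R i).asIdeal ^ ex k i := fun k hk i =>
    mem_pow_of_mem_prod R (ex k) (a k) (ha k hk).1 i
  -- sharing
  have hshare : ∀ k ∈ box, ∀ k' ∈ box, (a k : K) = a k' →
      ∑ v, (max (k v) (k' v) - min (k v) (k' v)) ≤ e * d := by
    intro k hk k' hk' hkk
    have hkk' : a k = a k' := RingOfIntegers.ext hkk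
    have h1 : ∀ i, a k ∈ (R i).asIdeal ^ (max (ex k i) (ex k' i)) := by
      intro i
      rcases le_total (ex k i) (ex k' i) with h | h
      · rw [max_eq_right h, hkk']; exact hmem k' hk' i
      · rw [max_eq_left h]; exact hmem k hk i
    have h3 := prod_dvd_of_mem R hRinj _ (a k) h1
    have h4 := map_dvd Ideal.absNorm h3
    rw [absNorm_prod R hRcard] at h4
    have h5 : Ideal.absNorm (Ideal.span {a k}) ≠ 0 := by
      rw [Ne, Ideal.absNorm_eq_zero_iff, Ideal.span_singleton_eq_bot]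
      exact (ha k hk).2.1
    have h6 := Nat.le_of_dvd (Nat.pos_of_ne_zero h5) h4
    have h7 := absNorm_span_le (a k) c (fun w => ((ha k hk).2.2 w).le)
    rw [hcpow] at h7
    have h8 : (2 : ℝ) ^ (∑ i, max (ex k i) (ex k' i)) ≤ 2 ^ (r * d + e * d) := by
      calc (2 : ℝ) ^ (∑ i, max (ex k i) (ex k' i))
          ≤ (Ideal.absNorm (Ideal.span {a k}) : ℝ) := by exact_mod_cast h6
        _ ≤ _ := h7
        _ = _ := by rw [pow_add, pow_mul, pow_mul]
    have h9 : ∑ i, max (ex k i) (ex k' i) ≤ r * d + e * d := by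
      exact (pow_le_pow_iff_right₀ (by norm_num : (1 : ℝ) < 2)).mp h8
    have h10 : ∑ i, max (ex k i) (ex k' i) =
        r * d + ∑ v, (max (k v) (k' v) - min (k v) (k' v)) := by
      rw [← hsumex k hk, Fintype.sum_prod_type, Fintype.sum_prod_type, ← Finset.sum_add_distrib]
      refine Finset.sum_congr rfl fun v _ => ?_
      simp only [Fintype.sum_bool, ex, if_true, Bool.false_eq_true, if_false]
      have e1 := hbox k hk v
      have e2 := hbox k' hk' v
      omega
    omega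
  -- the norms
  let b : (V → ℕ) → K := fun k => (a k : K) * σ (a k) / 2 ^ r
  have hbint : ∀ k ∈ box, IsIntegral ℤ (b k) := by
    intro k hk
    have h1 : b k = algebraMap L K (Algebra.norm L (a k : K) / 2 ^ r) := by
      rw [map_div₀, hnorm, map_pow, map_ofNat]
    rw [h1]
    refine IsIntegral.algebraMap (isIntegral_of_val fun v => ?_)
    rw [map_div₀]
    have hint : IsIntegral ℤ (Algebra.norm L (a k : K)) := Algebra.isIntegral_norm L (a k).2
    by_cases hv : (2 : 𝓞 L) ∈ v.asIdeal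
    · have e1 := hval ⟨v, hv⟩ (a k : K)
      simp only at e1
      rw [e1, map_pow, B7.val_two v h2 hv]
      have e2 : (P ⟨v, hv⟩).valuation K (a k : K) ≤ WithZero.exp (-(k ⟨v, hv⟩ : ℤ)) := by
        have := hmem k hk (⟨v, hv⟩, true)
        rw [← HeightOneSpectrum.intValuation_le_pow_iff_mem] at this
        have h5 := HeightOneSpectrum.valuation_of_algebraMap (K := K) (P ⟨v, hv⟩) (a k)
        rw [h5]
        exact this
      have e3 : (Q' ⟨v, hv⟩).valuation K (a k : K) ≤ WithZero.exp (-((r - k ⟨v, hv⟩ : ℕ) : ℤ)) := by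
        have := hmem k hk (⟨v, hv⟩, false)
        rw [← HeightOneSpectrum.intValuation_le_pow_iff_mem] at this
        have h5 := HeightOneSpectrum.valuation_of_algebraMap (K := K) (Q' ⟨v, hv⟩) (a k)
        rw [h5]
        exact this
      have e4 := mul_le_mul' e2 e3
      have e5 : (WithZero.exp (-(k ⟨v, hv⟩ : ℤ))) * WithZero.exp (-((r - k ⟨v, hv⟩ : ℕ) : ℤ)) =
          (WithZero.exp (-1 : ℤ)) ^ r := by
        rw [← WithZero.exp_add, ← WithZero.exp_nsmul]
        congr 1
        have := hbox k hk ⟨v, hv⟩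
        simp only [nsmul_eq_mul]
        push_cast [this]
        ring
      rw [e5] at e4
      exact div_le_one_of_le₀ e4 zero_le
    · have e1 : v.valuation L ((2 : L) ^ r) = 1 := by
        rw [map_pow]
        have : v.valuation L (2 : L) = 1 := by
          have h5 := HeightOneSpectrum.valuation_of_algebraMap (K := L) v (2 : 𝓞 L)
          have h6 : algebraMap (𝓞 L) L 2 = 2 := map_ofNat _ 2
          have h7 : v.valuation L (2 : L) = v.intValuation (2 : 𝓞 L) :=
            (congrArg (v.valuation L) h6).symm.trans h5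
          rw [h7, HeightOneSpectrum.intValuation_eq_one_iff]
          exact hv
        rw [this, one_pow]
      rw [e1, div_one]
      let y : 𝓞 L := ⟨_, hint⟩
      have := v.valuation_le_one (K := L) y
      exact this
  have hbφ : ∀ k ∈ box, ∀ φ : K →+* ℂ, φ (b k) = ((‖φ (a k : K)‖ ^ 2 / 2 ^ r : ℝ) : ℂ) := by
    intro k hk φ
    simp only [b]
    rw [map_div₀, norm_conj hr z hz σ hσσ hσ, map_pow, map_ofNat]
    push_cast
    ring
  have hbnorm : ∀ k ∈ box, ∀ φ : K →+* ℂ, ‖φ (b k)‖ ≤ (2 ^ e : ℕ) := by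
    intro k hk φ
    rw [hbφ k hk, Complex.norm_real, Real.norm_of_nonneg (by positivity),
      div_le_iff₀ (by positivity)]
    push_cast
    calc ‖φ (a k : K)‖ ^ 2 ≤ c ^ 2 := pow_le_pow_left₀ (norm_nonneg _) (haφ k hk φ) 2
      _ = 2 ^ e * 2 ^ r := by rw [hc2]; ring
  -- pigeonhole
  let T : Finset K := box.image b
  have hTcard : T.card ≤ ((4 * 2 ^ e + 1) ^ 4) ^ d := by
    have := card_le_of_bounded T (2 ^ e) (by
      intro x hx
      obtain ⟨k, hk, rfl⟩ := Finset.mem_image.mp hx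
      exact hbint k hk) (by
      intro x hx φ
      obtain ⟨k, hk, rfl⟩ := Finset.mem_image.mp hx
      exact hbnorm k hk φ)
    refine this.trans (le_of_eq ?_)
    rw [hKd, pow_mul, ← pow_mul _ 2 2]
  have hboxne : box.Nonempty := by
    rw [← Finset.card_pos, hboxcard]; positivity
  have hTne : T.Nonempty := hboxne.image b
  obtain ⟨β, hβT, hβmax⟩ := Finset.exists_max_image T
    (fun y => (box.filter (fun k => b k = y)).card) hTne
  set F := box.filter (fun k => b k = β) with hF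
  have hFcard : (r + 1) ^ d ≤ F.card * ((4 * 2 ^ e + 1) ^ 4) ^ d := by
    rw [← hboxcard]
    calc box.card ≤ F.card * T.card := Finset.card_le_mul_card_image box F.card hβmax
      _ ≤ _ := Nat.mul_le_mul_left _ hTcard
  obtain ⟨k0, hk0, hk0β⟩ := Finset.mem_image.mp hβT
  have hFbox : ∀ k ∈ F, k ∈ box ∧ b k = β := fun k hk => Finset.mem_filter.mp hk
  have ha0 : (a k0 : K) ≠ 0 := haK0 k0 hk0
  let A : Finset K := F.image (fun k => (a k : K) * (a k0 : K)⁻¹)
  have hAcard : F.card ≤ (3 * 2 ^ e) ^ d * A.card := by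
    refine Finset.card_le_mul_card_image F _ ?_
    intro y hy
    obtain ⟨k, hk, rfl⟩ := Finset.mem_image.mp hy
    refine (Finset.card_le_card ?_).trans ((card_close r (e * d) k).trans (le_of_eq ?_))
    · intro k' hk'
      obtain ⟨hk'F, hk'y⟩ := Finset.mem_filter.mp hk'
      have : (a k' : K) = a k := mul_right_cancel₀ (inv_ne_zero ha0) hk'y
      exact Finset.mem_filter.mpr ⟨(hFbox k' hk'F).1,
        hshare k (hFbox k hk).1 k' (hFbox k' hk'F).1 this.symm⟩
    · rw [hVcard, mul_pow, ← pow_mul]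
  have hAnorm : ∀ x ∈ A, ∀ φ : K →+* ℂ, ‖φ x‖ = 1 := by
    intro x hx φ
    obtain ⟨k, hk, rfl⟩ := Finset.mem_image.mp hx
    have e1 := hbφ k (hFbox k hk).1 φ
    have e2 := hbφ k0 hk0 φ
    rw [(hFbox k hk).2] at e1
    rw [hk0β, e1] at e2
    have e3 : ‖φ (a k : K)‖ ^ 2 / 2 ^ r = ‖φ (a k0 : K)‖ ^ 2 / 2 ^ r := by exact_mod_cast e2
    have e4 : ‖φ (a k : K)‖ ^ 2 = ‖φ (a k0 : K)‖ ^ 2 := by
      field_simp at e3
      exact e3
    have e5 : ‖φ (a k : K)‖ = ‖φ (a k0 : K)‖ := by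
      exact (pow_left_inj₀ (norm_nonneg _) (norm_nonneg _) (by norm_num)).mp e4
    have e6 : ‖φ (a k0 : K)‖ ≠ 0 := by
      rw [norm_ne_zero_iff]
      simpa using ha0
    rw [map_mul, map_inv₀, norm_mul, norm_inv, e5]
    exact mul_inv_cancel₀ e6
  -- the sets `Q`
  have hQfin : ∀ M : ℕ, {x : K | IsIntegral ℤ (x * a k0) ∧ ∀ φ : K →+* ℂ, ‖φ x‖ ≤ M}.Finite := by
    intro M
    have h1 := Embeddings.finite_of_norm_le K ℂ (M * c)
    refine Set.Finite.of_injOn (f := fun x => x * (a k0 : K)) (t := _) ?_ ?_ h1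
    · intro x hx
      refine ⟨hx.1, fun φ => ?_⟩
      rw [map_mul, norm_mul]
      exact mul_le_mul (hx.2 φ) (haφ k0 hk0 φ) (norm_nonneg _) (Nat.cast_nonneg M)
    · intro x _ y _ hxy
      exact mul_right_cancel₀ ha0 hxy
  refine ⟨A, fun M => (hQfin M).toFinset, hAnorm, ?_, ?_, ?_, ?_, (a k0 : K), fun x => x * σ x, ha0, ?_, ?_, ?_, ?_, ?_⟩
  · rw [Set.Finite.mem_toFinset]
    refine ⟨by rw [zero_mul]; exact isIntegral_zero, fun φ => by simp⟩
  · intro M x hx y hy
    rw [Set.Finite.mem_toFinset] at hx ⊢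
    refine ⟨?_, fun φ => ?_⟩
    · obtain ⟨k, hk, rfl⟩ := Finset.mem_image.mp hy
      rw [add_mul, mul_assoc, inv_mul_cancel₀ ha0, mul_one]
      exact hx.1.add (a k).2
    · rw [map_add]
      push_cast
      calc ‖φ x + φ y‖ ≤ ‖φ x‖ + ‖φ y‖ := norm_add_le _ _
        _ ≤ M + 1 := by rw [hAnorm y hy φ]; linarith [hx.2 φ]
  · calc (r + 1) ^ d ≤ F.card * ((4 * 2 ^ e + 1) ^ 4) ^ d := hFcard
      _ ≤ ((3 * 2 ^ e) ^ d * A.card) * ((4 * 2 ^ e + 1) ^ 4) ^ d := Nat.mul_le_mul_right _ hAcard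
      _ = _ := by rw [mul_pow (3 * 2 ^ e) ((4 * 2 ^ e + 1) ^ 4)]; ring
  · intro M
    have h1 := card_le_of_bounded ((hQfin M).toFinset.image (fun x => x * (a k0 : K)))
      (M * 2 ^ r * 2 ^ e) (by
        intro x hx
        obtain ⟨y, hy, rfl⟩ := Finset.mem_image.mp hx
        rw [Set.Finite.mem_toFinset] at hy
        exact hy.1) (by
        intro x hx φ
        obtain ⟨y, hy, rfl⟩ := Finset.mem_image.mp hx
        rw [Set.Finite.mem_toFinset] at hy
        rw [map_mul, norm_mul]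
        push_cast
        have e1 : c ≤ 2 ^ r * 2 ^ e := by rw [← hc2]; nlinarith
        calc ‖φ y‖ * ‖φ (a k0 : K)‖ ≤ M * c :=
              mul_le_mul (hy.2 φ) (haφ k0 hk0 φ) (norm_nonneg _) (Nat.cast_nonneg M)
          _ ≤ M * (2 ^ r * 2 ^ e) := mul_le_mul_of_nonneg_left e1 (Nat.cast_nonneg M)
          _ = _ := by ring)
    rw [Finset.card_image_of_injective _ (mul_left_injective₀ ha0)] at h1
    refine h1.trans (le_of_eq ?_)
    rw [hKd, pow_mul, ← pow_mul _ 2 2]
  · intro φ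
    rw [← hc2]
    exact pow_le_pow_left₀ (norm_nonneg _) (haφ k0 hk0 φ) 2
  · intro x y
    show (x * y) * σ (x * y) = (x * σ x) * (y * σ y)
    rw [map_mul]; ring
  · intro φ x
    exact norm_conj hr z hz σ hσσ hσ φ x
  · intro x hx
    refine hx.mul ?_
    have h1 := hx.map (σ.restrictScalars ℤ : K →ₐ[ℤ] K)
    exact h1
  · intro M x hx
    rw [Set.Finite.mem_toFinset] at hx
    exact hx


end main

end Pool.Agent.H118R2
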