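import Mathlib
import Pool.Agent.TeamU.G8
import Pool.Agent.H118R2.Gap2
import Pool.Agent.H118R2.Gap4

/-! Planar sets with many unit distances whose distance set contains only short geometric
progressions. -/

open NumberField Module Finset Filter Topology
open Pool.Agent.TeamU

namespace Pool.Agent.H118R2

/-- Short geometric progressions for the squared distances. -/
theorem run_of_struct {K : Type} [Field K] [NumberField K] (a0 : K) (nrm : K → K) (c : ℝ)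
    (ha0 : a0 ≠ 0) (hc : ∀ φ : K →+* ℂ, ‖φ a0‖ ^ 2 ≤ c)
    (hmul : ∀ x y, nrm (x * y) = nrm x * nrm y)
    (hnrm : ∀ (φ : K →+* ℂ) (x : K), φ (nrm x) = ((‖φ x‖ ^ 2 : ℝ) : ℂ))
    (hint : ∀ x, IsIntegral ℤ x → IsIntegral ℤ (nrm x)) (M : ℝ)
    (φ : K →+* ℂ) (x0 x1 xk : K) (k : ℕ)
    (h0 : IsIntegral ℤ (x0 * a0) ∧ ∀ φ : K →+* ℂ, ‖φ x0‖ ≤ M)
    (hk : IsIntegral ℤ (xk * a0) ∧ ∀ φ : K →+* ℂ, ‖φ xk‖ ≤ M)
    (δ t : ℝ) (hδ : 0 < δ) (ht : 0 < t) (ht1 : t ≠ 1)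
    (e0 : ‖φ x0‖ = δ) (e1 : ‖φ x1‖ = t * δ) (ek : ‖φ xk‖ = t ^ k * δ) :
    (2 : ℝ) ^ k ≤ (M ^ 2 * c) ^ finrank ℚ K := by
  have hnz : ∀ x : K, x ≠ 0 → nrm x ≠ 0 := by
    intro x hx h
    have h1 := hnrm φ x
    rw [h, map_zero] at h1
    have h2 : ‖φ x‖ ^ 2 = 0 := by exact_mod_cast h1.symm
    have h3 : φ x = 0 := by
      rw [← norm_eq_zero]
      exact pow_eq_zero_iff (by norm_num) |>.mp h2
    exact hx ((map_eq_zero φ).mp h3)
  have hx0 : x0 ≠ 0 := by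
    rintro rfl
    rw [map_zero, norm_zero] at e0
    linarith
  have hx1 : x1 ≠ 0 := by
    rintro rfl
    rw [map_zero, norm_zero] at e1
    have := mul_pos ht hδ
    linarith
  have hn0 := hnz x0 hx0
  have hn1 := hnz x1 hx1
  set g : K := nrm x1 / nrm x0 with hg
  have hg0 : g ≠ 0 := div_ne_zero hn1 hn0
  have hφg : φ g = ((t ^ 2 : ℝ) : ℂ) := by
    rw [hg, map_div₀, hnrm, hnrm, e0, e1]
    have : (δ : ℂ) ≠ 0 := by exact_mod_cast hδ.ne'
    push_cast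
    field_simp
  have hg1 : g ≠ 1 := by
    intro h
    rw [h, map_one] at hφg
    have h1 : t ^ 2 = 1 := by exact_mod_cast hφg.symm
    apply ht1
    nlinarith
  have hgk : nrm xk = nrm x0 * g ^ k := by
    apply φ.injective
    rw [map_mul, map_pow, hφg, hnrm, hnrm, e0, ek]
    push_cast
    ring
  have hpos : ∀ ψ : K →+* ℂ, ∃ r : ℝ, 0 < r ∧ ψ g = r := by
    intro ψ
    refine ⟨‖ψ x1‖ ^ 2 / ‖ψ x0‖ ^ 2, ?_, ?_⟩
    · have h1 : 0 < ‖ψ x1‖ := norm_pos_iff.mpr (by simpa using hx1)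
      have h2 : 0 < ‖ψ x0‖ := norm_pos_iff.mpr (by simpa using hx0)
      positivity
    · rw [hg, map_div₀, hnrm, hnrm]
      push_cast
      rfl
  have hna0 := hnz a0 ha0
  refine run_bound (nrm x0 * nrm a0) g k (M ^ 2 * c) ?_ ?_ (mul_ne_zero hn0 hna0) hg0 hg1 hpos
    ?_ ?_
  · rw [← hmul]
    exact hint _ h0.1
  · have : nrm x0 * nrm a0 * g ^ k = nrm (xk * a0) := by rw [hmul, hgk]; ring
    rw [this]
    exact hint _ hk.1
  · intro ψ
    rw [map_mul, norm_mul, hnrm, hnrm, Complex.norm_real, Complex.norm_real,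
      Real.norm_of_nonneg (by positivity), Real.norm_of_nonneg (by positivity)]
    exact mul_le_mul (pow_le_pow_left₀ (norm_nonneg _) (h0.2 ψ) 2) (hc ψ) (by positivity)
      (by positivity)
  · intro ψ
    have : nrm x0 * nrm a0 * g ^ k = nrm xk * nrm a0 := by rw [hgk]; ring
    rw [this, map_mul, norm_mul, hnrm, hnrm, Complex.norm_real, Complex.norm_real,
      Real.norm_of_nonneg (by positivity), Real.norm_of_nonneg (by positivity)]
    exact mul_le_mul (pow_le_pow_left₀ (norm_nonneg _) (hk.2 ψ) 2) (hc ψ) (by positivity)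
      (by positivity)

/-- the algebraic sets with the short progression property -/
theorem G_field' (C : ℕ) : ∃ C' : ℕ, 0 < C' ∧ ∀ (L : Type) (_ : Field L) (_ : NumberField L),
    IsTotallyReal L → TwoSplit L → (discr L).natAbs ≤ C ^ finrank ℚ L → ∀ r : ℕ,
    ∃ (K : Type) (_ : Field K) (_ : NumberField K) (φ : K →+* ℂ) (A : Finset K)
      (Q : ℕ → Finset K), (∀ a ∈ A, ‖φ a‖ = 1) ∧ 0 ∈ Q 0 ∧
      (∀ R, ∀ x ∈ Q R, ∀ a ∈ A, x + a ∈ Q (R + 1)) ∧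
      (r + 1) ^ finrank ℚ L ≤ A.card * C' ^ finrank ℚ L ∧
      (∀ M, (Q M).card ≤ ((C' * 2 ^ r * (M + 1)) ^ 4) ^ finrank ℚ L) ∧
      ∀ (M : ℕ) (x0 y0 x1 y1 xk yk : K) (j0 j1 jk i0 i1 ik : ℕ), j0 ≤ M → j1 ≤ M → jk ≤ M →
        i0 ≤ M → i1 ≤ M → ik ≤ M → x0 ∈ Q j0 → y0 ∈ Q i0 → x1 ∈ Q j1 → y1 ∈ Q i1 →
        xk ∈ Q jk → yk ∈ Q ik → ∀ (k : ℕ) (δ t : ℝ), 0 < δ → 0 < t → t ≠ 1 →
        ‖φ (x0 - y0)‖ = δ → ‖φ (x1 - y1)‖ = t * δ → ‖φ (xk - yk)‖ = t ^ k * δ →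
        (2 : ℝ) ^ k ≤ (((2 * M) ^ 2 * (2 ^ r * 2 ^ (28 * C))) ^ 2) ^ finrank ℚ L := by
  set e : ℕ := 28 * C with he
  refine ⟨3 * 2 ^ e * (4 * 2 ^ e + 1) ^ 4, by positivity, fun L _ _ hr h2 hdisc r => ?_⟩
  obtain ⟨K, _, _, _, hK, z, hz⟩ := exists_K L hr
  have hdpos : 0 < finrank ℚ L := finrank_pos
  have hKd : finrank ℚ K = 2 * finrank ℚ L := by
    rw [← finrank_mul_finrank ℚ L K, hK, mul_comm]
  have hd : √|(discr K : ℝ)| < ((2 : ℝ) ^ e) ^ finrank ℚ L := by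
    rw [Real.sqrt_lt' (by positivity)]
    have h1 := discr_K_le hr hK z hz
    have h3 : (discr K).natAbs ≤ (28 * C) ^ finrank ℚ L * (28 * C) ^ finrank ℚ L := by
      calc (discr K).natAbs ≤ 28 ^ finrank ℚ L * (discr L).natAbs ^ 2 := h1
        _ ≤ 28 ^ finrank ℚ L * (C ^ finrank ℚ L) ^ 2 := by gcongr
        _ = 28 ^ finrank ℚ L * C ^ finrank ℚ L * C ^ finrank ℚ L := by ring
        _ ≤ 28 ^ finrank ℚ L * C ^ finrank ℚ L * (28 ^ finrank ℚ L * C ^ finrank ℚ L) := by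
            refine Nat.mul_le_mul_left _ ?_
            exact Nat.le_mul_of_pos_left _ (by positivity)
        _ = _ := by rw [mul_pow]
    have h4 : (28 * C) ^ finrank ℚ L < (2 ^ e) ^ finrank ℚ L := by
      exact Nat.pow_lt_pow_left (by rw [he]; exact Nat.lt_two_pow_self) hdpos.ne'
    have h5 : (discr K).natAbs < (2 ^ e) ^ finrank ℚ L * (2 ^ e) ^ finrank ℚ L :=
      lt_of_le_of_lt h3 (Nat.mul_lt_mul'' h4 h4)
    have h6 : |(discr K : ℝ)| = ((discr K).natAbs : ℝ) := by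
      rw [Nat.cast_natAbs]; push_cast; rfl
    rw [h6, sq]
    exact_mod_cast h5
  obtain ⟨A, Q, hA, hQ0, hQ1, hcard, hQ, a0, nrm, ha0, hac, hmul, hnrm, hint, hQs⟩ :=
    G_one' hr h2 hK z hz e hd r
  obtain ⟨φ⟩ : Nonempty (K →+* ℂ) := inferInstance
  refine ⟨K, inferInstance, inferInstance, φ, A, Q,
    fun a ha => hA a ha φ, hQ0, hQ1, hcard, fun M => ?_, ?_⟩
  · refine (hQ M).trans ?_
    gcongr
    have h1 : 1 ≤ (4 * 2 ^ e + 1) ^ 4 := Nat.one_le_pow _ _ (by positivity)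
    have h3 : 4 * 2 ^ e + 1 ≤ (4 * 2 ^ e + 1) ^ 4 := Nat.le_self_pow (by norm_num) _
    have h4 : 4 * 2 ^ e ≤ 3 * 2 ^ e * (4 * 2 ^ e + 1) ^ 4 := by
      have : 1 ≤ 2 ^ e := Nat.one_le_two_pow
      nlinarith
    have h5 : 1 ≤ 2 ^ r := Nat.one_le_two_pow
    have h6 : 1 ≤ 2 ^ e := Nat.one_le_two_pow
    calc 4 * (M * 2 ^ r * 2 ^ e) + 1 ≤ 4 * 2 ^ e * (2 ^ r * (M + 1)) := by nlinarith
      _ ≤ 3 * 2 ^ e * (4 * 2 ^ e + 1) ^ 4 * (2 ^ r * (M + 1)) := Nat.mul_le_mul_right _ h4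
      _ = _ := by ring
  · intro M x0 y0 x1 y1 xk yk j0 j1 jk i0 i1 ik hj0 hj1 hjk hi0 hi1 hik hx0 hy0 hx1 hy1 hxk hyk
      k δ t hδ ht ht1 e0 e1 ek
    have hdiff : ∀ (j i : ℕ) (x y : K), j ≤ M → i ≤ M → x ∈ Q j → y ∈ Q i →
        IsIntegral ℤ ((x - y) * a0) ∧ ∀ φ : K →+* ℂ, ‖φ (x - y)‖ ≤ 2 * M := by
      intro j i x y hj hi hx hy
      obtain ⟨h1, h2⟩ := hQs j x hx
      obtain ⟨h3, h4⟩ := hQs i y hy
      refine ⟨by rw [sub_mul]; exact h1.sub h3, fun ψ => ?_⟩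
      rw [map_sub]
      have e1 : (j : ℝ) ≤ M := by exact_mod_cast hj
      have e2 : (i : ℝ) ≤ M := by exact_mod_cast hi
      calc ‖ψ x - ψ y‖ ≤ ‖ψ x‖ + ‖ψ y‖ := norm_sub_le _ _
        _ ≤ 2 * M := by linarith [h2 ψ, h4 ψ]
    have := run_of_struct a0 nrm (2 ^ r * 2 ^ e) ha0 hac hmul hnrm hint (2 * M) φ (x0 - y0)
      (x1 - y1) (xk - yk) k (hdiff _ _ _ _ hj0 hi0 hx0 hy0) (hdiff _ _ _ _ hjk hik hxk hyk)
      δ t hδ ht ht1 e0 e1 ek
    rwa [hKd, pow_mul] at this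

/-- the transfer principle of `Pool.Agent.TeamU.transfer`, with the set made explicit -/
theorem transfer' {Λ : Type*} [AddCommGroup Λ] (π : Λ →+ ℂ) (hπ : Function.Injective π)
    (A : Finset Λ) (hA : ∀ a ∈ A, ‖π a‖ = 1) (Q : ℕ → Finset Λ) (h0 : (Q 0).Nonempty)
    (hmono : ∀ R, Q R ⊆ Q (R + 1)) (hQ : ∀ R, ∀ z ∈ Q R, ∀ a ∈ A, z + a ∈ Q (R + 1))
    (M : ℕ) (hM : 0 < M) (X : ℝ) (hX : ((Q M).card : ℝ) ≤ X) :
    ∃ R, R + 1 ≤ M ∧ 1 ≤ ((Q (R + 1)).image π).card ∧ (((Q (R + 1)).image π).card : ℝ) ≤ X ∧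
      (((Q (R + 1)).image π).card : ℝ) * A.card ≤
        mult ((Q (R + 1)).image π) 1 * X ^ ((1 : ℝ) / M) := by
  classical
  have hmono' : ∀ R S, R ≤ S → Q R ⊆ Q S := by
    intro R S h
    induction h with
    | refl => exact Subset.refl _
    | step _ ih => exact ih.trans (hmono _)
  have h0' : (1 : ℝ) ≤ (Q 0).card := by exact_mod_cast card_pos.mpr h0
  have hX1 : 1 ≤ X := by
    refine le_trans ?_ hX
    refine h0'.trans ?_
    exact_mod_cast card_le_card (hmono' 0 M (Nat.zero_le _))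
  have hX0 : 0 < X := lt_of_lt_of_le one_pos hX1
  set ρ : ℝ := X ^ ((1 : ℝ) / M) with hρ
  have hρ0 : 0 < ρ := Real.rpow_pos_of_pos hX0 _
  have hρM : ρ ^ M = X := by
    rw [hρ, ← Real.rpow_natCast, ← Real.rpow_mul hX0.le]
    rw [one_div, inv_mul_cancel₀ (by exact_mod_cast hM.ne'), Real.rpow_one]
  obtain ⟨R, hR, hR2⟩ : ∃ R, R < M ∧ ((Q (R + 1)).card : ℝ) ≤ (Q R).card * ρ := by
    by_contra hcon
    push Not at hcon
    have key : ∀ R, R ≤ M → ρ ^ R ≤ (Q R).card := by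
      intro R
      induction R with
      | zero => intro _; simpa using h0'
      | succ R ih =>
        intro hR
        have h1 := ih (by omega)
        have h2 := hcon R (by omega)
        calc ρ ^ (R + 1) = ρ ^ R * ρ := pow_succ _ _
          _ ≤ (Q R).card * ρ := mul_le_mul_of_nonneg_right h1 hρ0.le
          _ ≤ _ := h2.le
    obtain ⟨m, rfl⟩ : ∃ m, M = m + 1 := ⟨M - 1, by omega⟩
    have h1 := key m (by omega)
    have h2 := hcon m (by omega)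
    have h3 : X < (Q (m + 1)).card := by
      calc X = ρ ^ m * ρ := by rw [← pow_succ, hρM]
        _ ≤ (Q m).card * ρ := mul_le_mul_of_nonneg_right h1 hρ0.le
        _ < _ := h2
    linarith
  refine ⟨R, hR, ?_, ?_, ?_⟩
  · rw [card_image_of_injective _ hπ]
    exact card_pos.mpr (h0.mono (hmono' 0 _ (Nat.zero_le _)))
  · rw [card_image_of_injective _ hπ]
    refine le_trans ?_ hX
    exact_mod_cast card_le_card (hmono' (R + 1) M (by omega))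
  · rw [card_image_of_injective _ hπ]
    have h1 : (Q R).card * A.card ≤ mult ((Q (R + 1)).image π) 1 := by
      unfold mult
      rw [← card_product]
      refine card_le_card_of_injOn (fun p => (π p.1, π (p.1 + p.2))) ?_ ?_
      · rintro ⟨z, a⟩ hza
        simp only [coe_product, Set.mem_prod, mem_coe] at hza
        simp only [coe_filter, mem_product, Set.mem_ofPred_eq]
        refine ⟨⟨mem_image_of_mem _ (hmono _ hza.1), mem_image_of_mem _ (hQ _ _ hza.1 _ hza.2)⟩, ?_⟩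
        rw [dist_eq_norm, map_add, sub_add_cancel_left, norm_neg]
        exact hA _ hza.2
      · rintro ⟨z, a⟩ _ ⟨z', a'⟩ _ h
        simp only [Prod.mk.injEq] at h
        have h2 := hπ h.1
        have h3 := hπ h.2
        subst h2
        exact Prod.ext rfl (add_left_cancel h3)
    have h1' : ((Q R).card : ℝ) * A.card ≤ mult ((Q (R + 1)).image π) 1 := by exact_mod_cast h1
    calc ((Q (R + 1)).card : ℝ) * A.card ≤ ((Q R).card * ρ) * A.card :=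
          mul_le_mul_of_nonneg_right hR2 (Nat.cast_nonneg _)
      _ = ((Q R).card * A.card) * ρ := by ring
      _ ≤ _ := mul_le_mul_of_nonneg_right h1' hρ0.le

theorem exists_of_mult_ne_zero {α : Type*} [MetricSpace α] (P : Finset α) (t : ℝ)
    (h : mult P t ≠ 0) : ∃ p ∈ P, ∃ q ∈ P, dist p q = t := by
  by_contra hcon
  push Not at hcon
  exact h (mult_eq_zero P t hcon)

/-- Every field of the tower gives a planar configuration with many unit distances and only short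
geometric progressions among its distances. -/
theorem family_of_field' (C : ℕ) : ∃ X Z B : ℝ, 1 < X ∧ 1 < Z ∧ 1 ≤ B ∧
    ∀ (L : Type) (_ : Field L) (_ : NumberField L),
    IsTotallyReal L → TwoSplit L → (discr L).natAbs ≤ C ^ finrank ℚ L →
    ∃ P : Finset ℂ, 1 ≤ P.card ∧ (P.card : ℝ) ≤ X ^ finrank ℚ L ∧
      (P.card : ℝ) * Z ^ finrank ℚ L ≤ mult P 1 ∧
      ∀ δ t : ℝ, 0 < δ → 0 < t → t ≠ 1 → ∀ k : ℕ, mult P δ ≠ 0 → mult P (t * δ) ≠ 0 →
        mult P (t ^ k * δ) ≠ 0 → (2 : ℝ) ^ k ≤ B ^ finrank ℚ L := by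
  classical
  obtain ⟨C', hC', h⟩ := G_field' C
  set r : ℕ := 4 * C' with hr
  obtain ⟨M, hM0, hM⟩ := exists_M (C' * 2 ^ r)
  set X : ℝ := ((C' * 2 ^ r * (M + 1) : ℕ) : ℝ) ^ 5 with hXdef
  have hb : 1 < C' * 2 ^ r * (M + 1) := by
    have h1 : 1 ≤ C' * 2 ^ r := Nat.mul_pos hC' (by positivity)
    nlinarith
  have hX1 : 1 < X := one_lt_pow₀ (by exact_mod_cast hb) (by norm_num)
  have hX0 : 0 < X := by linarith
  set ρ : ℝ := X ^ ((1 : ℝ) / M) with hρ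
  have hρ0 : 0 < ρ := Real.rpow_pos_of_pos hX0 _
  have hρ4 : ρ < 4 := by
    have h1 : X ^ ((1 : ℝ) / M) < ((4 : ℝ) ^ M) ^ ((1 : ℝ) / M) :=
      Real.rpow_lt_rpow (by linarith) hM (by positivity)
    rwa [one_div, Real.pow_rpow_inv_natCast (by norm_num) hM0.ne', ← one_div] at h1
  have hM1 : (1 : ℝ) ≤ M := by exact_mod_cast hM0
  have hB1 : (1 : ℝ) ≤ ((2 * M) ^ 2 * (2 ^ r * 2 ^ (28 * C))) ^ 2 := by
    have e1 : (1 : ℝ) ≤ (2 * M) ^ 2 := one_le_pow₀ (by linarith)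
    have e2 : (1 : ℝ) ≤ 2 ^ r := one_le_pow₀ (by norm_num)
    have e3 : (1 : ℝ) ≤ 2 ^ (28 * C) := one_le_pow₀ (by norm_num)
    exact one_le_pow₀ (one_le_mul_of_one_le_of_one_le e1 (one_le_mul_of_one_le_of_one_le e2 e3))
  refine ⟨X, 4 / ρ, ((2 * M) ^ 2 * (2 ^ r * 2 ^ (28 * C))) ^ 2, hX1,
    by rwa [lt_div_iff₀ hρ0, one_mul], hB1, fun L _ _ hreal h2 hdisc => ?_⟩
  set d := finrank ℚ L with hd
  have hd1 : 1 ≤ d := finrank_pos
  obtain ⟨K, _, _, φ, A, Q, hA, hQ0, hQ, hcard, hQc, hrun⟩ := h L _ _ hreal h2 hdisc r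
  have hQM : (((range (M + 1)).biUnion Q).card : ℝ) ≤ X ^ d := by
    have h1 : ((range (M + 1)).biUnion Q).card ≤
        ∑ j ∈ range (M + 1), ((C' * 2 ^ r * (M + 1)) ^ 4) ^ d := by
      refine card_biUnion_le.trans (Finset.sum_le_sum fun j hj => (hQc j).trans ?_)
      have hj' : j + 1 ≤ M + 1 := by simpa using hj
      gcongr
    rw [Finset.sum_const, card_range, smul_eq_mul] at h1
    have h2 : (M + 1) * ((C' * 2 ^ r * (M + 1)) ^ 4) ^ d ≤ ((C' * 2 ^ r * (M + 1)) ^ 5) ^ d := by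
      have h3 : ((C' * 2 ^ r * (M + 1)) ^ 5) ^ d =
          (C' * 2 ^ r * (M + 1)) ^ d * ((C' * 2 ^ r * (M + 1)) ^ 4) ^ d := by
        rw [← mul_pow, ← pow_succ']
      rw [h3]
      refine Nat.mul_le_mul_right _ ?_
      have h1 : 1 ≤ C' * 2 ^ r := Nat.mul_pos hC' (by positivity)
      calc M + 1 ≤ C' * 2 ^ r * (M + 1) := by nlinarith
        _ ≤ (C' * 2 ^ r * (M + 1)) ^ d := Nat.le_self_pow (by omega) _
    have h4 := h1.trans h2
    rw [hXdef]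
    exact_mod_cast h4
  obtain ⟨R, hRM, hP1, hP2, hP3⟩ := transfer' (φ : K →+ ℂ) φ.injective A hA
    (fun R => (range (R + 1)).biUnion Q) ⟨0, by simpa using hQ0⟩ (by
      intro R x hx
      simp only [mem_biUnion, Finset.mem_range] at hx ⊢
      obtain ⟨j, hj, hx⟩ := hx
      exact ⟨j, by omega, hx⟩) (by
      intro R x hx a ha
      simp only [mem_biUnion, Finset.mem_range] at hx ⊢
      obtain ⟨j, hj, hx⟩ := hx
      exact ⟨j + 1, by omega, hQ j x hx a ha⟩) M hM0 (X ^ d) hQM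
  set P : Finset ℂ := ((range (R + 1 + 1)).biUnion Q).image (φ : K →+ ℂ) with hP
  refine ⟨P, hP1, hP2, ?_, ?_⟩
  · have hA4 : (4 : ℝ) ^ d ≤ A.card := by
      have h1 : (4 * C') ^ d ≤ A.card * C' ^ d :=
        (Nat.pow_le_pow_left (by omega) d).trans hcard
      rw [mul_pow] at h1
      have h2 : 4 ^ d ≤ A.card := Nat.le_of_mul_le_mul_right h1 (by positivity)
      exact_mod_cast h2
    have hρd : (X ^ d) ^ ((1 : ℝ) / M) = ρ ^ d := by
      rw [hρ, ← Real.rpow_natCast, ← Real.rpow_natCast, ← Real.rpow_mul hX0.le,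
        ← Real.rpow_mul hX0.le, mul_comm]
    rw [hρd] at hP3
    rw [div_pow, mul_div_assoc', div_le_iff₀ (by positivity)]
    calc (P.card : ℝ) * 4 ^ d ≤ P.card * A.card := mul_le_mul_of_nonneg_left hA4 (Nat.cast_nonneg _)
      _ ≤ _ := hP3
  · intro δ t hδ ht ht1 k h0 h1 hk
    have hmem : ∀ x ∈ P, ∃ y : K, ∃ j : ℕ, j ≤ M ∧ y ∈ Q j ∧ φ y = x := by
      intro x hx
      obtain ⟨y, hy, rfl⟩ := mem_image.mp hx
      rw [mem_biUnion] at hy
      obtain ⟨j, hj, hy⟩ := hy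
      rw [Finset.mem_range] at hj
      exact ⟨y, j, by omega, hy, rfl⟩
    obtain ⟨p0, hp0, q0, hq0, e0⟩ := exists_of_mult_ne_zero P _ h0
    obtain ⟨p1, hp1, q1, hq1, e1⟩ := exists_of_mult_ne_zero P _ h1
    obtain ⟨pk, hpk, qk, hqk, ek⟩ := exists_of_mult_ne_zero P _ hk
    obtain ⟨x0, j0, hj0, hx0, rfl⟩ := hmem p0 hp0
    obtain ⟨y0, i0, hi0, hy0, rfl⟩ := hmem q0 hq0
    obtain ⟨x1, j1, hj1, hx1, rfl⟩ := hmem p1 hp1
    obtain ⟨y1, i1, hi1, hy1, rfl⟩ := hmem q1 hq1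
    obtain ⟨xk, jk, hjk, hxk, rfl⟩ := hmem pk hpk
    obtain ⟨yk, ik, hik, hyk, rfl⟩ := hmem qk hqk
    rw [dist_eq_norm, ← map_sub] at e0 e1 ek
    exact hrun M x0 y0 x1 y1 xk yk j0 j1 jk i0 i1 ik hj0 hj1 hjk hi0 hi1 hik hx0 hy0 hx1 hy1
      hxk hyk k δ t hδ ht ht1 e0 e1 ek

end Pool.Agent.H118R2
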