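import Mathlib
import Pool.Agent.H118R2.Gap1
import Pool.Agent.H118R2.Gap2

/-! From a planar set with many unit distances and short progressions of distances to a planar set
in which the distance one is much more frequent than every other distance. -/

open Finset

namespace Pool.Agent.H118R2

/-- power sums -/
theorem power_sums (D : Finset ℝ) (f : ℝ → ℝ) (hf0 : ∀ x, 0 ≤ f x) (p : ℕ) (lam : ℝ) (hlam : 1 ≤ lam)
    (h1 : (1 : ℝ) ∈ D) (hu : 0 < f 1) (hD : (D.card : ℝ) ≤ lam ^ (p + 1)) :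
    (∑ δ ∈ D, f δ ^ (p + 1)) * f 1 ≤ 2 * lam * ∑ δ ∈ D, f δ ^ (p + 2) := by
  set S := ∑ δ ∈ D, f δ ^ (p + 2) with hS
  set u := f 1 with hudef
  have hl0 : 0 < lam := by linarith
  set θ := u / lam with hθ
  have hθ0 : 0 < θ := by positivity
  have hSu : u ^ (p + 2) ≤ S :=
    single_le_sum (f := fun δ => f δ ^ (p + 2)) (fun i _ => pow_nonneg (hf0 i) _) h1
  have h2 : ∀ δ ∈ D, f δ ^ (p + 1) ≤ θ ^ (p + 1) + f δ ^ (p + 2) / θ := by
    intro δ _
    have h3 := hf0 δ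
    rcases le_or_gt (f δ) θ with h | h
    · have := pow_le_pow_left₀ h3 h (p + 1)
      have h4 : 0 ≤ f δ ^ (p + 2) / θ := by positivity
      linarith
    · have h4 : f δ ^ (p + 1) ≤ f δ ^ (p + 2) / θ := by
        rw [le_div_iff₀ hθ0, pow_succ _ (p + 1)]
        exact mul_le_mul_of_nonneg_left h.le (by positivity)
      have h5 : 0 ≤ θ ^ (p + 1) := by positivity
      linarith
  have h3 : ∑ δ ∈ D, f δ ^ (p + 1) ≤ D.card * θ ^ (p + 1) + S / θ := by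
    refine (sum_le_sum h2).trans ?_
    rw [sum_add_distrib, sum_const, nsmul_eq_mul, ← sum_div]
  have h4 : (D.card : ℝ) * θ ^ (p + 1) ≤ u ^ (p + 1) := by
    calc (D.card : ℝ) * θ ^ (p + 1) ≤ lam ^ (p + 1) * θ ^ (p + 1) := by gcongr
      _ = u ^ (p + 1) := by rw [← mul_pow, hθ]; congr 1; field_simp
  have h5 : u ^ (p + 1) * u ≤ S := by rw [← pow_succ]; exact hSu
  have h6 : S / θ * u = S * lam := by rw [hθ]; field_simp
  have h7 : 0 ≤ S := le_trans (by positivity) hSu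
  calc (∑ δ ∈ D, f δ ^ (p + 1)) * u ≤ (D.card * θ ^ (p + 1) + S / θ) * u := by gcongr
    _ = D.card * θ ^ (p + 1) * u + S / θ * u := by ring
    _ ≤ u ^ (p + 1) * u + S * lam := by rw [h6]; gcongr
    _ ≤ S + S * lam := by linarith
    _ ≤ 2 * lam * S := by nlinarith

/-- The weighted union of scaled copies. -/
theorem scaled_union (P : Finset ℂ) (p ℓ : ℕ) (hp : 1 ≤ p) (hℓ : 1 ≤ ℓ) (lam : ℝ) (hlam : 1 ≤ lam)
    (hcard : (P.card : ℝ) ^ 2 ≤ lam ^ (p + 1)) (hu4 : 4 ≤ mult P 1) (huP : P.card ≤ mult P 1)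
    (hrun : ∀ δ t : ℝ, 0 < δ → 0 < t → t ≠ 1 → mult P δ ≠ 0 →
      ∃ j, j ≤ ℓ ∧ mult P (t ^ j * δ) = 0) :
    ∃ W : Finset ℂ, 1 ≤ W.card ∧ W.card ≤ P.card ^ (2 * p + 5) ∧
      ∀ t : ℝ, 0 < t → t ≠ 1 →
        (mult W t : ℝ) + W.card * (mult P 1 / P.card) /
          (2 * lam * ((p + 2) * 2 ^ (p + 2) * ℓ ^ 3)) ≤ mult W 1 := by
  classical
  set m := P.card with hm
  set D : Finset ℝ := ((P ×ˢ P).image (fun x => dist x.1 x.2)).filter (0 < ·) with hDdef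
  have hDcard : D.card ≤ m ^ 2 := by
    refine (card_filter_le _ _).trans (card_image_le.trans ?_)
    rw [card_product, sq]
  have hDpos : ∀ δ ∈ D, 0 < δ := fun δ hδ => (mem_filter.mp hδ).2
  have hDmem : ∀ δ, 0 < δ → mult P δ ≠ 0 → δ ∈ D := by
    intro δ hδ h
    by_contra hcon
    apply h
    apply mult_eq_zero
    intro a ha b hb hab
    apply hcon
    rw [hDdef, mem_filter]
    exact ⟨mem_image.mpr ⟨(a, b), mem_product.mpr ⟨ha, hb⟩, hab⟩, hδ⟩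
  have h1D : (1 : ℝ) ∈ D := hDmem 1 one_pos (by omega)
  have hmpos : 0 < m := by
    rcases Nat.eq_zero_or_pos m with h | h
    · exfalso
      have := mult_le_sq P 1
      rw [← hm, h] at this
      omega
    · exact h
  let f : ℝ → ℝ := fun x => if 0 < x then (mult P x : ℝ) else 0
  have hf0 : ∀ x, 0 ≤ f x := fun x => by
    simp only [f]; split_ifs <;> positivity
  have hfpos : ∀ x, 0 < x → f x = mult P x := fun x hx => by simp only [f, if_pos hx]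
  have hfD : ∀ x, x ∉ D → f x = 0 := by
    intro x hx
    by_cases h0 : 0 < x
    · rw [hfpos x h0]
      by_contra hcon
      exact hx (hDmem x h0 (by exact_mod_cast hcon))
    · simp only [f, if_neg h0]
  let w : ℝ → ℕ := fun δ => mult P δ ^ (p + 1)
  have hw : ∀ δ ∈ D, (w δ : ℝ) = f δ ^ (p + 1) := by
    intro δ hδ
    rw [hfpos δ (hDpos δ hδ)]
    simp only [w]
    push_cast
    rfl
  let s : Finset (Σ _ : ℝ, ℕ) := D.sigma fun δ => range (w δ)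
  let part : (Σ _ : ℝ, ℕ) → Finset ℂ := fun i => P.image fun x => ((i.1⁻¹ : ℝ) : ℂ) * x
  set R0 : ℝ := 1 + ∑ δ ∈ D, ∑ x ∈ P ×ˢ P, δ⁻¹ * dist x.1 x.2 with hR0
  have hnn : ∀ δ ∈ D, 0 ≤ ∑ x ∈ P ×ˢ P, δ⁻¹ * dist x.1 x.2 := fun δ hδ =>
    sum_nonneg fun x _ => mul_nonneg (inv_nonneg.mpr (hDpos δ hδ).le) dist_nonneg
  have hR01 : 1 ≤ R0 := by
    have : 0 ≤ ∑ δ ∈ D, ∑ x ∈ P ×ˢ P, δ⁻¹ * dist x.1 x.2 := sum_nonneg hnn
    linarith
  have hdist : ∀ δ : ℝ, 0 < δ → ∀ x y : ℂ, dist (((δ⁻¹ : ℝ) : ℂ) * x) (((δ⁻¹ : ℝ) : ℂ) * y) =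
      δ⁻¹ * dist x y := by
    intro δ hδ x y
    rw [dist_eq_norm, dist_eq_norm, ← mul_sub, norm_mul, Complex.norm_real,
      Real.norm_of_nonneg (inv_nonneg.mpr hδ.le)]
  obtain ⟨W, hW1, hW2, hW3⟩ := far_union s part R0 (by linarith) (by
    rintro ⟨δ, i⟩ hi a ha b hb
    rw [mem_sigma] at hi
    obtain ⟨a', ha', rfl⟩ := mem_image.mp ha
    obtain ⟨b', hb', rfl⟩ := mem_image.mp hb
    rw [hdist δ (hDpos δ hi.1)]
    have e1 : δ⁻¹ * dist a' b' ≤ ∑ x ∈ P ×ˢ P, δ⁻¹ * dist x.1 x.2 :=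
      single_le_sum (f := fun x : ℂ × ℂ => δ⁻¹ * dist x.1 x.2)
        (fun x _ => mul_nonneg (inv_nonneg.mpr (hDpos δ hi.1).le) dist_nonneg)
        (mem_product.mpr ⟨ha', hb'⟩ : (a', b') ∈ P ×ˢ P)
    have e2 := single_le_sum (f := fun δ => ∑ x ∈ P ×ˢ P, δ⁻¹ * dist x.1 x.2) hnn hi.1
    simp only at e2
    show δ⁻¹ * dist a' b' ≤ R0
    linarith) m (fun i _ => card_image_le)
  -- cardinality
  have hpartcard : ∀ i ∈ s, (part i).card = m := by
    rintro ⟨δ, i⟩ hi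
    rw [mem_sigma] at hi
    apply card_image_of_injective
    apply mul_right_injective₀
    have := (inv_pos.mpr (hDpos δ hi.1)).ne'
    exact_mod_cast this
  have hWcard : (W.card : ℝ) = m * ∑ δ ∈ D, f δ ^ (p + 1) := by
    rw [hW1, sum_congr rfl hpartcard, sum_const, card_sigma, smul_eq_mul]
    push_cast
    rw [mul_comm]
    congr 1
    exact sum_congr rfl fun δ hδ => by rw [card_range]; exact hw δ hδ
  have hWmult : ∀ t, 0 < t → t ≤ R0 → (mult W t : ℝ) = ∑ δ ∈ D, f δ ^ (p + 1) * f (t * δ) := by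
    intro t ht0 ht
    rw [hW2 t ht, sum_sigma]
    push_cast
    refine sum_congr rfl fun δ hδ => ?_
    have h1 : ∀ i ∈ range (w δ), (mult (part ⟨δ, i⟩) t : ℝ) = f (t * δ) := by
      intro i _
      have h2 := mult_image_isometry (fun x : ℂ => ((δ⁻¹ : ℝ) : ℂ) * x) δ⁻¹
        (inv_pos.mpr (hDpos δ hδ)).ne' (hdist δ (hDpos δ hδ)) P t
      show (mult (P.image fun x => ((δ⁻¹ : ℝ) : ℂ) * x) t : ℝ) = _
      rw [h2, hfpos _ (mul_pos ht0 (hDpos δ hδ)), div_inv_eq_mul]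
    rw [sum_congr rfl h1, sum_const, card_range, nsmul_eq_mul, hw δ hδ]
  set S := ∑ δ ∈ D, f δ ^ (p + 2) with hS
  have hW1' : (mult W 1 : ℝ) = S := by
    rw [hWmult 1 one_pos hR01]
    refine sum_congr rfl fun δ _ => ?_
    rw [one_mul, ← pow_succ]
  have hf1 : f 1 = mult P 1 := hfpos 1 one_pos
  have hu4' : (4 : ℝ) ≤ f 1 := by rw [hf1]; exact_mod_cast hu4
  have huP' : (m : ℝ) ≤ f 1 := by rw [hf1]; exact_mod_cast huP
  have hSu : f 1 ^ (p + 2) ≤ S :=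
    single_le_sum (f := fun δ => f δ ^ (p + 2)) (fun i _ => pow_nonneg (hf0 i) _) h1D
  have hS4 : 4 * (m : ℝ) ≤ S := by
    refine le_trans ?_ hSu
    calc 4 * (m : ℝ) ≤ f 1 * f 1 := by nlinarith
      _ = f 1 ^ 2 := (sq _).symm
      _ ≤ f 1 ^ (p + 2) := pow_le_pow_right₀ (by linarith) (by omega)
  have hℓ' : (1 : ℝ) ≤ ℓ := by exact_mod_cast hℓ
  have hκ : (2 : ℝ) ≤ (p + 2) * 2 ^ (p + 2) * ℓ ^ 3 := by
    have e1 : (2 : ℝ) ≤ p + 2 := by
      have : (0 : ℝ) ≤ p := Nat.cast_nonneg p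
      linarith
    have e2 : (1 : ℝ) ≤ 2 ^ (p + 2) := one_le_pow₀ (by norm_num)
    have e3 : (1 : ℝ) ≤ (ℓ : ℝ) ^ 3 := one_le_pow₀ hℓ'
    calc (2 : ℝ) = 2 * 1 * 1 := by norm_num
      _ ≤ _ := by gcongr
  set κ : ℝ := (p + 2) * 2 ^ (p + 2) * ℓ ^ 3 with hκdef
  have hκ0 : 0 < κ := by linarith
  have hm0 : (0 : ℝ) < m := by exact_mod_cast hmpos
  have hgap : ∀ t : ℝ, 0 < t → t ≠ 1 → (mult W t : ℝ) ≤ S - S / κ := by
    intro t ht0 ht1
    rcases le_or_gt t R0 with ht | ht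
    · rw [hWmult t ht0 ht]
      have h1 := correlation D f hf0 hfD p hp ℓ hℓ t ht0.ne' (by
        intro δ hδ
        by_cases h0 : mult P δ = 0
        · exact ⟨0, Nat.zero_le _, by rw [pow_zero, one_mul, hfpos δ (hDpos δ hδ), h0]; simp⟩
        · obtain ⟨j, hj, hj0⟩ := hrun δ t (hDpos δ hδ) ht0 ht1 h0
          exact ⟨j, hj, by rw [hfpos _ (mul_pos (pow_pos ht0 j) (hDpos δ hδ)), hj0]; simp⟩)
      refine h1.trans (le_of_eq ?_)
      rw [hκdef]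
      ring
    · have h1 : (mult W t : ℝ) ≤ 2 * m := by exact_mod_cast hW3 t ht
      have h2 : S / κ ≤ S / 2 := by
        apply div_le_div_of_nonneg_left _ (by norm_num) hκ
        linarith
      linarith
  have hTpos : 0 < ∑ δ ∈ D, f δ ^ (p + 1) := by
    have h2 := single_le_sum (f := fun δ => f δ ^ (p + 1)) (fun i _ => pow_nonneg (hf0 i) _) h1D
    have : (0 : ℝ) < f 1 ^ (p + 1) := by positivity
    linarith
  refine ⟨W, ?_, ?_, ?_⟩
  · have : (0 : ℝ) < W.card := by rw [hWcard]; positivity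
    exact_mod_cast this
  · have h1 : (W.card : ℝ) ≤ (m : ℝ) ^ (2 * p + 5) := by
      rw [hWcard]
      have h2 : ∀ δ ∈ D, f δ ^ (p + 1) ≤ ((m : ℝ) ^ 2) ^ (p + 1) := by
        intro δ hδ
        refine pow_le_pow_left₀ (hf0 δ) ?_ _
        rw [hfpos δ (hDpos δ hδ), sq]
        exact_mod_cast mult_le_sq P δ
      have h3 := sum_le_sum h2
      rw [sum_const, nsmul_eq_mul] at h3
      have h4 : (D.card : ℝ) ≤ (m : ℝ) ^ 2 := by exact_mod_cast hDcard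
      calc (m : ℝ) * ∑ δ ∈ D, f δ ^ (p + 1) ≤ m * (D.card * ((m : ℝ) ^ 2) ^ (p + 1)) := by gcongr
        _ ≤ m * ((m : ℝ) ^ 2 * ((m : ℝ) ^ 2) ^ (p + 1)) := by gcongr
        _ = (m : ℝ) ^ (2 * p + 5) := by ring
    exact_mod_cast h1
  · intro t ht0 ht1
    have h1 := hgap t ht0 ht1
    rw [hW1']
    have hDl : (D.card : ℝ) ≤ lam ^ (p + 1) := le_trans (by exact_mod_cast hDcard) hcard
    have h2 := power_sums D f hf0 p lam hlam h1D (by linarith) hDl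
    have h3 : (W.card : ℝ) * (mult P 1 / m) / (2 * lam * κ) ≤ S / κ := by
      rw [hWcard, ← hf1]
      have hl0 : 0 < lam := by linarith
      have e1 : (m : ℝ) * (∑ δ ∈ D, f δ ^ (p + 1)) * (f 1 / m) = (∑ δ ∈ D, f δ ^ (p + 1)) * f 1 := by
        field_simp
      rw [e1, div_le_div_iff₀ (by positivity) hκ0]
      calc (∑ δ ∈ D, f δ ^ (p + 1)) * f 1 * κ ≤ (2 * lam * S) * κ := by gcongr
        _ = _ := by ring
    linarith

end Pool.Agent.H118R2
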