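import Mathlib
import Pool.Agent.H118R2.Gap5
import Pool.Agent.H118R2.Gap6

/-! Assembly: gaps between the largest distance multiplicities. -/

open NumberField Module Finset Filter Topology
open Pool.Agent.TeamU

namespace Pool.Agent.H118R2

/-- exponential beats cubic -/
theorem exp_beats (a Y : ℝ) (hY : 1 < Y) : ∃ d0 : ℕ, ∀ d : ℕ, d0 ≤ d → a * (d : ℝ) ^ 3 ≤ Y ^ d := by
  have h := tendsto_pow_const_div_const_pow_of_one_lt 3 hY
  have h2 : Tendsto (fun n : ℕ => a * ((n : ℝ) ^ 3 / Y ^ n)) atTop (𝓝 (a * 0)) := h.const_mul _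
  rw [mul_zero] at h2
  obtain ⟨d0, hd0⟩ := (h2.eventually_lt_const zero_lt_one).exists_forall_of_atTop
  refine ⟨d0, fun d hd => ?_⟩
  have h3 := hd0 d hd
  have hYd : 0 < Y ^ d := by positivity
  rw [← mul_div_assoc, div_lt_one hYd] at h3
  exact h3.le

/-- Every field of the tower of large degree gives a planar set with a large gap. -/
theorem gap_of_field (C : ℕ) : ∃ (X Z : ℝ) (d0 : ℕ), 1 < X ∧ 1 < Z ∧
    ∀ (L : Type) (_ : Field L) (_ : NumberField L),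
    IsTotallyReal L → TwoSplit L → (discr L).natAbs ≤ C ^ finrank ℚ L → d0 ≤ finrank ℚ L →
    ∃ W : Finset ℂ, 1 ≤ W.card ∧ (W.card : ℝ) ≤ X ^ finrank ℚ L ∧
      ∀ t : ℝ, 0 < t → t ≠ 1 →
        (mult W t : ℝ) + W.card * Z ^ finrank ℚ L ≤ mult W 1 := by
  obtain ⟨X, Z, B, hX, hZ, hB, h⟩ := family_of_field' C
  have hZ0 : 0 < Z := by linarith
  set Y := √Z with hYdef
  have hY1 : 1 < Y := Real.lt_sqrt_of_sq_lt (by simpa using hZ)
  have hY0 : 0 < Y := by linarith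
  have hYY : Y * Y = Z := Real.mul_self_sqrt hZ0.le
  set Z1 := √Y with hZ1def
  have hZ11 : 1 < Z1 := Real.lt_sqrt_of_sq_lt (by simpa using hY1)
  have hZZ : Z1 * Z1 = Y := Real.mul_self_sqrt hY0.le
  obtain ⟨p0, hp0⟩ := pow_unbounded_of_one_lt (X ^ 2) hY1
  set p := p0 + 1 with hp
  have hpY : X ^ 2 ≤ Y ^ (p + 1) := hp0.le.trans (pow_le_pow_right₀ hY1.le (by omega))
  obtain ⟨b, hb⟩ := pow_unbounded_of_one_lt B (by norm_num : (1 : ℝ) < 2)
  obtain ⟨d1, hd1⟩ := exp_beats (2 * ((p + 2) * 2 ^ (p + 2) * (b + 1) ^ 3)) Z1 hZ11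
  obtain ⟨d2, hd2⟩ := pow_unbounded_of_one_lt 4 hZ
  refine ⟨X ^ (2 * p + 5), Z1, max d1 (max d2 1), one_lt_pow₀ hX (by omega), hZ11,
    fun L _ _ hreal h2 hdisc hd => ?_⟩
  obtain ⟨P, hP1, hP2, hP3, hP4⟩ := h L _ _ hreal h2 hdisc
  set d := finrank ℚ L with hddef
  have hdd1 : d1 ≤ d := le_trans (le_max_left _ _) hd
  have hdd2 : d2 ≤ d := le_trans (le_trans (le_max_left _ _) (le_max_right _ _)) hd
  have hdd3 : 1 ≤ d := le_trans (le_trans (le_max_right _ _) (le_max_right _ _)) hd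
  have hm1 : (1 : ℝ) ≤ P.card := by exact_mod_cast hP1
  have hm0 : (0 : ℝ) < P.card := by linarith
  have hZd4 : (4 : ℝ) ≤ Z ^ d := hd2.le.trans (pow_le_pow_right₀ hZ.le hdd2)
  have hu4 : 4 ≤ mult P 1 := by
    have : (4 : ℝ) ≤ mult P 1 := by nlinarith
    exact_mod_cast this
  have huP : P.card ≤ mult P 1 := by
    have : (P.card : ℝ) ≤ mult P 1 := by nlinarith
    exact_mod_cast this
  have hYd : (1 : ℝ) ≤ Y ^ d := one_le_pow₀ hY1.le
  obtain ⟨W, hW1, hW2, hW3⟩ := scaled_union P p (b * d + 1) (by omega) (by omega) (Y ^ d) hYd (by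
    calc (P.card : ℝ) ^ 2 ≤ (X ^ d) ^ 2 := pow_le_pow_left₀ hm0.le hP2 2
      _ = (X ^ 2) ^ d := by rw [← pow_mul, ← pow_mul, mul_comm]
      _ ≤ (Y ^ (p + 1)) ^ d := pow_le_pow_left₀ (by positivity) hpY d
      _ = (Y ^ d) ^ (p + 1) := by rw [← pow_mul, ← pow_mul, mul_comm]) hu4 huP (by
    intro δ t hδ ht ht1 h0
    by_contra hcon
    push Not at hcon
    have h3 := hcon 1 (by omega)
    rw [pow_one] at h3
    have h4 := hP4 δ t hδ ht ht1 (b * d + 1) h0 h3 (hcon _ le_rfl)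
    have h5 : B ^ d ≤ (2 ^ b) ^ d := pow_le_pow_left₀ (by linarith) hb.le d
    rw [pow_succ, pow_mul] at h4
    have h6 : (0 : ℝ) < (2 ^ b) ^ d := by positivity
    linarith)
  refine ⟨W, hW1, ?_, ?_⟩
  · calc (W.card : ℝ) ≤ (P.card : ℝ) ^ (2 * p + 5) := by exact_mod_cast hW2
      _ ≤ (X ^ d) ^ (2 * p + 5) := pow_le_pow_left₀ hm0.le hP2 _
      _ = (X ^ (2 * p + 5)) ^ d := by rw [← pow_mul, ← pow_mul, mul_comm]
  · intro t ht0 ht1
    refine le_trans ?_ (hW3 t ht0 ht1)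
    have hdR : (1 : ℝ) ≤ d := by exact_mod_cast hdd3
    have hW0 : (0 : ℝ) ≤ W.card := Nat.cast_nonneg _
    set κ : ℝ := (p + 2) * 2 ^ (p + 2) * (b + 1) ^ 3 with hκ
    have hκ0 : 0 < κ := by positivity
    have hbig := hd1 d hdd1
    have hl : (((b * d + 1 : ℕ) : ℝ)) ^ 3 ≤ (b + 1) ^ 3 * (d : ℝ) ^ 3 := by
      rw [← mul_pow]
      refine pow_le_pow_left₀ (by positivity) ?_ 3
      push_cast
      linarith
    have hden : (p + 2 : ℝ) * 2 ^ (p + 2) * (((b * d + 1 : ℕ) : ℝ)) ^ 3 ≤ κ * (d : ℝ) ^ 3 := by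
      calc (p + 2 : ℝ) * 2 ^ (p + 2) * (((b * d + 1 : ℕ) : ℝ)) ^ 3
          ≤ (p + 2 : ℝ) * 2 ^ (p + 2) * ((b + 1) ^ 3 * (d : ℝ) ^ 3) := by gcongr
        _ = _ := by rw [hκ]; ring
    have hl1 : (0 : ℝ) < (((b * d + 1 : ℕ) : ℝ)) := by positivity
    have hmain : Z1 ^ d ≤ (mult P 1 / P.card : ℝ) /
        (2 * Y ^ d * ((p + 2) * 2 ^ (p + 2) * (((b * d + 1 : ℕ) : ℝ)) ^ 3)) := by
      rw [le_div_iff₀ (by positivity), le_div_iff₀ hm0]
      have e1 : Z ^ d = Z1 ^ d * Z1 ^ d * Y ^ d := by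
        rw [← mul_pow, hZZ, ← mul_pow, hYY]
      calc Z1 ^ d * (2 * Y ^ d * ((p + 2) * 2 ^ (p + 2) * (((b * d + 1 : ℕ) : ℝ)) ^ 3)) * P.card
          ≤ Z1 ^ d * (2 * Y ^ d * (κ * (d : ℝ) ^ 3)) * P.card := by gcongr
        _ = Z1 ^ d * Y ^ d * P.card * (2 * κ * (d : ℝ) ^ 3) := by ring
        _ ≤ Z1 ^ d * Y ^ d * P.card * Z1 ^ d := by gcongr
        _ = P.card * Z ^ d := by rw [e1]; ring
        _ ≤ mult P 1 := hP3
    rw [mul_div_assoc]
    have := mul_le_mul_of_nonneg_left hmain hW0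
    push_cast at this ⊢
    linarith

/-- Filling up: one set with a large gap gives sets with `r` very frequent distances. -/
theorem fill_up (W : Finset ℂ) (g : ℝ) (hg0 : 0 ≤ g) (hW1 : 1 ≤ W.card)
    (hW : ∀ t : ℝ, 0 < t → t ≠ 1 → (mult W t : ℝ) + g ≤ mult W 1) (a r b : ℕ) (ha : 1 ≤ a)
    (hr : 1 ≤ r) (hbig : 4 * (W.card : ℝ) ≤ a * g) :
    ∃ Q : Finset ℂ, Q.card = r * a * W.card + b ∧ ∃ T : Finset ℝ, T.card = r ∧
      (∀ t ∈ T, 0 < t) ∧ ∀ t ∈ T, ∀ s, 0 < s → s ∉ T →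
        (mult Q s : ℝ) + a * g / 2 ≤ mult Q t := by
  classical
  set D : Finset ℝ := ((W ×ˢ W).image (fun x => dist x.1 x.2)).filter (0 < ·) with hDdef
  have hDpos : ∀ δ ∈ D, 0 < δ := fun δ hδ => (mem_filter.mp hδ).2
  have hDmem : ∀ δ, 0 < δ → mult W δ ≠ 0 → δ ∈ D := by
    intro δ hδ h
    by_contra hcon
    apply h
    apply mult_eq_zero
    intro a ha b hb hab
    apply hcon
    rw [hDdef, mem_filter]
    exact ⟨mem_image.mpr ⟨(a, b), mem_product.mpr ⟨ha, hb⟩, hab⟩, hδ⟩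
  set Λ : ℝ := 2 + ∑ δ ∈ D, ∑ δ' ∈ D, δ' / δ with hΛdef
  have hnn : ∀ δ ∈ D, 0 ≤ ∑ δ' ∈ D, δ' / δ := fun δ hδ =>
    sum_nonneg fun δ' hδ' => div_nonneg (hDpos _ hδ').le (hDpos _ hδ).le
  have hΛ2 : 2 ≤ Λ := by
    have : 0 ≤ ∑ δ ∈ D, ∑ δ' ∈ D, δ' / δ := sum_nonneg hnn
    linarith
  have hΛ0 : 0 < Λ := by linarith
  have hΛ1 : 1 < Λ := by linarith
  have hΛ : ∀ δ ∈ D, ∀ δ' ∈ D, δ' < Λ * δ := by
    intro δ hδ δ' hδ'
    have e1 := single_le_sum (f := fun δ' => δ' / δ)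
      (fun x hx => div_nonneg (hDpos _ hx).le (hDpos _ hδ).le) hδ'
    have e2 := single_le_sum (f := fun δ => ∑ δ' ∈ D, δ' / δ) hnn hδ
    have e3 : δ' / δ < Λ := by linarith
    rwa [div_lt_iff₀ (hDpos _ hδ)] at e3
  -- the parts
  let ι := (ℕ × ℕ) ⊕ ℕ
  let sc : ℕ → Finset ℂ := fun i => W.image fun x => ((Λ ^ i : ℝ) : ℂ) * x
  let part : ι → Finset ℂ := Sum.elim (fun i => sc i.1) (fun _ => {0})
  let s : Finset ι := (range r ×ˢ range a).disjSum (range b)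
  have hdist : ∀ (i : ℕ) (x y : ℂ), dist (((Λ ^ i : ℝ) : ℂ) * x) (((Λ ^ i : ℝ) : ℂ) * y) =
      Λ ^ i * dist x y := by
    intro i x y
    rw [dist_eq_norm, dist_eq_norm, ← mul_sub, norm_mul, Complex.norm_real,
      Real.norm_of_nonneg (pow_nonneg hΛ0.le i)]
  set R0 : ℝ := ∑ i ∈ range r, (Λ ^ i + ∑ x ∈ W ×ˢ W, Λ ^ i * dist x.1 x.2) with hR0
  have hnn2 : ∀ i, 0 ≤ ∑ x ∈ W ×ˢ W, Λ ^ i * dist x.1 x.2 := fun i =>
    sum_nonneg fun x _ => mul_nonneg (pow_nonneg hΛ0.le i) dist_nonneg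
  have hnn3 : ∀ i ∈ range r, 0 ≤ Λ ^ i + ∑ x ∈ W ×ˢ W, Λ ^ i * dist x.1 x.2 := fun i _ => by
    have := hnn2 i
    have := pow_nonneg hΛ0.le i
    linarith
  have hR0nn : 0 ≤ R0 := sum_nonneg hnn3
  have hR0i : ∀ i ∈ range r, Λ ^ i + ∑ x ∈ W ×ˢ W, Λ ^ i * dist x.1 x.2 ≤ R0 := fun i hi =>
    single_le_sum (f := fun i => Λ ^ i + ∑ x ∈ W ×ˢ W, Λ ^ i * dist x.1 x.2) hnn3 hi
  obtain ⟨Q, hQ1, hQ2, hQ3⟩ := far_union s part R0 hR0nn (by
    rintro (⟨i, k⟩ | k) hi x hx y hy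
    · rw [inl_mem_disjSum, mem_product] at hi
      obtain ⟨x', hx', rfl⟩ := mem_image.mp hx
      obtain ⟨y', hy', rfl⟩ := mem_image.mp hy
      rw [hdist]
      have e1 : Λ ^ i * dist x' y' ≤ ∑ x ∈ W ×ˢ W, Λ ^ i * dist x.1 x.2 :=
        single_le_sum (f := fun x : ℂ × ℂ => Λ ^ i * dist x.1 x.2)
          (fun x _ => mul_nonneg (pow_nonneg hΛ0.le i) dist_nonneg)
          (mem_product.mpr ⟨hx', hy'⟩ : (x', y') ∈ W ×ˢ W)
      have e2 := hR0i i hi.1
      have e3 := pow_nonneg hΛ0.le i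
      show Λ ^ i * dist x' y' ≤ R0
      linarith
    · have h1 : x = 0 := mem_singleton.mp hx
      have h2 : y = 0 := mem_singleton.mp hy
      rw [h1, h2, dist_self]
      exact hR0nn) W.card (by
    rintro (⟨i, k⟩ | k) _
    · exact card_image_le
    · simpa [part] using hW1)
  have hcard : ∀ i : ℕ, (sc i).card = W.card := by
    intro i
    apply card_image_of_injective
    apply mul_right_injective₀
    have := (pow_pos hΛ0 i).ne'
    exact_mod_cast this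
  have hmult : ∀ t, 0 < t → t ≤ R0 → (mult Q t : ℝ) = ∑ i ∈ range r, a * (mult W (t / Λ ^ i) : ℝ) := by
    intro t ht0 ht
    rw [hQ2 t ht, sum_disjSum, sum_product]
    have h1 : ∀ i ∈ range b, mult (part (Sum.inr i)) t = 0 := by
      intro i _
      apply mult_eq_zero
      intro x hx y hy
      rw [mem_singleton.mp hx, mem_singleton.mp hy, dist_self]
      exact ht0.ne
    rw [sum_congr rfl h1]
    push_cast
    rw [sum_const_zero, add_zero]
    refine sum_congr rfl fun i _ => ?_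
    have h2 : ∀ k ∈ range a, (mult (part (Sum.inl (i, k))) t : ℝ) = (mult W (t / Λ ^ i) : ℝ) := by
      intro k _
      congr 1
      exact mult_image_isometry (fun x : ℂ => ((Λ ^ i : ℝ) : ℂ) * x) (Λ ^ i)
        (pow_pos hΛ0 i).ne' (hdist i) W t
    rw [sum_congr rfl h2, sum_const, card_range, nsmul_eq_mul]
  have hg1 : g ≤ mult W 1 := by
    have := hW 2 (by norm_num) (by norm_num)
    have h2 : (0 : ℝ) ≤ mult W 2 := Nat.cast_nonneg _
    linarith
  have ha' : (1 : ℝ) ≤ a := by exact_mod_cast ha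
  have hinjpow : Function.Injective (fun i : ℕ => Λ ^ i) := fun i j h =>
    (pow_right_injective₀ hΛ0 hΛ1.ne') h
  refine ⟨Q, ?_, (range r).image (fun i => Λ ^ i), ?_, ?_, ?_⟩
  · rw [hQ1, sum_disjSum, sum_product]
    have h1 : ∀ i ∈ range r, ∑ k ∈ range a, (part (Sum.inl (i, k))).card = a * W.card := by
      intro i _
      have : ∀ k ∈ range a, (part (Sum.inl (i, k))).card = W.card := fun k _ => hcard i
      rw [sum_congr rfl this, sum_const, card_range, smul_eq_mul]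
    have h2 : ∀ i ∈ range b, (part (Sum.inr i)).card = 1 := fun i _ => rfl
    rw [sum_congr rfl h1, sum_congr rfl h2, sum_const, sum_const, card_range, card_range,
      smul_eq_mul, smul_eq_mul]
    ring
  · rw [card_image_of_injective _ hinjpow, card_range]
  · intro t ht
    obtain ⟨i, _, rfl⟩ := mem_image.mp ht
    exact pow_pos hΛ0 i
  · intro t ht u hu0 huT
    obtain ⟨i0, hi0, rfl⟩ := mem_image.mp ht
    -- lower bound
    have hlow : (a : ℝ) * mult W 1 ≤ mult Q (Λ ^ i0) := by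
      have h1 : Λ ^ i0 ≤ R0 := by
        have := hR0i i0 hi0
        have := hnn2 i0
        linarith
      rw [hmult _ (pow_pos hΛ0 i0) h1]
      have h2 := single_le_sum (f := fun i => (a : ℝ) * (mult W (Λ ^ i0 / Λ ^ i) : ℝ))
        (fun i _ => mul_nonneg (Nat.cast_nonneg _) (Nat.cast_nonneg _)) hi0
      rwa [div_self (pow_pos hΛ0 i0).ne'] at h2
    -- upper bound
    have hup : (mult Q u : ℝ) ≤ a * mult W 1 - a * g / 2 := by
      rcases le_or_gt u R0 with h | h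
      · rw [hmult u hu0 h]
        by_cases hex : ∃ i ∈ range r, mult W (u / Λ ^ i) ≠ 0
        · obtain ⟨i, hi, hi'⟩ := hex
          have huniq : ∀ j ∈ range r, j ≠ i → (a : ℝ) * (mult W (u / Λ ^ j) : ℝ) = 0 := by
            intro j _ hji
            by_contra hcon
            have hj' : mult W (u / Λ ^ j) ≠ 0 := by
              intro h0
              apply hcon
              rw [h0]; simp
            have hDi := hDmem _ (div_pos hu0 (pow_pos hΛ0 i)) hi'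
            have hDj := hDmem _ (div_pos hu0 (pow_pos hΛ0 j)) hj'
            have key : ∀ i j : ℕ, i < j → u / Λ ^ i ∈ D → u / Λ ^ j ∈ D → False := by
              intro i j hij h1 h2
              have h3 := hΛ _ h2 _ h1
              have h4 : Λ * (u / Λ ^ j) ≤ u / Λ ^ i := by
                rw [← mul_div_assoc, div_le_div_iff₀ (pow_pos hΛ0 j) (pow_pos hΛ0 i)]
                have h5 : Λ * Λ ^ i ≤ Λ ^ j := by
                  rw [← pow_succ']
                  exact pow_le_pow_right₀ hΛ1.le (by omega)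
                calc Λ * u * Λ ^ i = u * (Λ * Λ ^ i) := by ring
                  _ ≤ u * Λ ^ j := mul_le_mul_of_nonneg_left h5 hu0.le
              linarith
            rcases lt_or_gt_of_ne hji with hlt | hlt
            · exact key j i hlt hDj hDi
            · exact key i j hlt hDi hDj
          rw [sum_eq_single i (fun j hj hji => huniq j hj hji) (fun h => absurd hi h)]
          have hne1 : u / Λ ^ i ≠ 1 := by
            intro h1
            apply huT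
            rw [div_eq_one_iff_eq (pow_pos hΛ0 i).ne'] at h1
            exact mem_image.mpr ⟨i, hi, h1.symm⟩
          have h2 := hW _ (div_pos hu0 (pow_pos hΛ0 i)) hne1
          have h3 : (0 : ℝ) ≤ a * g := by positivity
          nlinarith
        · push Not at hex
          rw [sum_eq_zero (fun i hi => by rw [hex i hi]; simp)]
          have h3 : (0 : ℝ) ≤ a * g := by positivity
          nlinarith
      · have h1 : (mult Q u : ℝ) ≤ 2 * W.card := by exact_mod_cast hQ3 u h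
        nlinarith
    linarith

/-- From the family of sets with large gap to all `n` and `r`. -/
theorem all_of_gap_family {X Z : ℝ} (hX : 1 < X) (hZ : 1 < Z) (m : ℕ) (hm : 0 < m)
    (h : ∀ j : ℕ, ∃ W : Finset ℂ, 1 ≤ W.card ∧ (W.card : ℝ) ≤ X ^ (m * 2 ^ j) ∧
      ∀ t : ℝ, 0 < t → t ≠ 1 → (mult W t : ℝ) + W.card * Z ^ (m * 2 ^ j) ≤ mult W 1) :
    ∃ ε : ℝ, 0 < ε ∧ ∃ n0 : ℕ, 1 ≤ n0 ∧ ∀ n r : ℕ, 1 ≤ r → n0 * r ≤ n →
      ∃ Q : Finset ℂ, Q.card = n ∧ ∃ T : Finset ℝ, T.card = r ∧ (∀ t ∈ T, 0 < t) ∧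
        ∀ t ∈ T, ∀ s, 0 < s → s ∉ T →
          (mult Q s : ℝ) + 2 * ((n : ℝ) / r) ^ (1 + ε) ≤ mult Q t := by
  have hlX : 0 < Real.log X := Real.log_pos hX
  have hlZ : 0 < Real.log Z := Real.log_pos hZ
  have hX0 : 0 < X := by linarith
  have hZ0 : 0 < Z := by linarith
  set η := Real.log Z / (2 * Real.log X) with hη
  have hη0 : 0 < η := by positivity
  have hXη : X ^ (2 * η) = Z := by
    rw [Real.rpow_def_of_pos hX0]
    have : Real.log X * (2 * η) = Real.log Z := by rw [hη]; field_simp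
    rw [this, Real.exp_log hZ0]
  have hlim : Tendsto (fun n : ℕ => (n : ℝ) ^ (η / 2)) atTop atTop :=
    (tendsto_rpow_atTop (by positivity)).comp tendsto_natCast_atTop_atTop
  set K : ℝ := 8 * 2 ^ (1 + η / 2) with hK
  have hK8 : 8 ≤ K := by
    have : (1 : ℝ) ≤ 2 ^ (1 + η / 2) := Real.one_le_rpow (by norm_num) (by positivity)
    rw [hK]; linarith
  obtain ⟨n1, hn1⟩ := (hlim.eventually_ge_atTop K).exists_forall_of_atTop
  obtain ⟨n2, hn2⟩ := exists_nat_ge (X ^ m)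
  refine ⟨η / 2, by positivity, max (max n1 n2) 1, le_max_right _ _, fun n r hr hn => ?_⟩
  have hn' : max (max n1 n2) 1 ≤ n / r := (Nat.le_div_iff_mul_le hr).mpr hn
  set n' := n / r with hn'def
  have hnn1 : n1 ≤ n' := le_trans (le_trans (le_max_left _ _) (le_max_left _ _)) hn'
  have hnn2 : n2 ≤ n' := le_trans (le_trans (le_max_right _ _) (le_max_left _ _)) hn'
  have hn0 : 1 ≤ n' := le_trans (le_max_right _ _) hn'
  have hn0' : (0 : ℝ) < n' := by exact_mod_cast hn0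
  have hXm : X ^ (m * 2 ^ 0) ≤ n' := by
    rw [pow_zero, mul_one]
    exact hn2.trans (by exact_mod_cast hnn2)
  obtain ⟨j, hj1, hj2⟩ : ∃ j : ℕ, X ^ (m * 2 ^ j) ≤ n' ∧ (n' : ℝ) < X ^ (m * 2 ^ (j + 1)) := by
    by_contra hcon
    push Not at hcon
    have hall : ∀ j : ℕ, X ^ (m * 2 ^ j) ≤ n' := by
      intro j
      induction j with
      | zero => exact hXm
      | succ j ih => exact hcon j ih
    obtain ⟨N, hN⟩ := pow_unbounded_of_one_lt (n' : ℝ) hX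
    have h1 : N ≤ m * 2 ^ N := by
      have : N < 2 ^ N := Nat.lt_two_pow_self
      nlinarith
    have h2 := pow_le_pow_right₀ hX.le h1
    linarith [hall N]
  obtain ⟨W, hW1, hW2, hW3⟩ := h j
  set d := m * 2 ^ j with hd
  set N := W.card with hN
  have hNn : N ≤ n' := by
    have : (N : ℝ) ≤ n' := hW2.trans hj1
    exact_mod_cast this
  set a := n' / N with ha
  have ha1 : 1 ≤ a := (Nat.one_le_div_iff hW1).mpr hNn
  have haN : a * N ≤ n' := Nat.div_mul_le_self n' N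
  have haN2 : n' ≤ 2 * a * N := by
    have h81 := Nat.div_add_mod n' N
    have h82 := Nat.mod_lt n' hW1
    nlinarith
  have hraN : r * a * N ≤ n := by
    calc r * a * N = a * N * r := by ring
      _ ≤ n' * r := Nat.mul_le_mul_right _ haN
      _ ≤ n := Nat.div_mul_le_self n r
  -- size of `Z ^ d`
  have h3 : (n' : ℝ) ^ η ≤ Z ^ d := by
    have e1 : (n' : ℝ) ≤ X ^ (2 * d) := by
      have : m * 2 ^ (j + 1) = 2 * d := by rw [hd, pow_succ]; ring
      rw [this] at hj2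
      exact hj2.le
    calc (n' : ℝ) ^ η ≤ (X ^ (2 * d)) ^ η := Real.rpow_le_rpow hn0'.le e1 hη0.le
      _ = (X ^ (2 * η)) ^ d := by
        rw [← Real.rpow_natCast, ← Real.rpow_natCast, ← Real.rpow_mul hX0.le,
          ← Real.rpow_mul hX0.le]
        congr 1
        push_cast
        ring
      _ = Z ^ d := by rw [hXη]
  have h4 := hn1 n' hnn1
  have hηη : (n' : ℝ) ^ η = (n' : ℝ) ^ (η / 2) * (n' : ℝ) ^ (η / 2) := by
    rw [← Real.rpow_add hn0']; congr 1; ring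
  have hZd : K * (n' : ℝ) ^ (η / 2) ≤ Z ^ d := by
    refine le_trans ?_ h3
    rw [hηη]
    gcongr
  have hZd4 : 4 ≤ Z ^ d := by
    have : (1 : ℝ) ≤ (n' : ℝ) ^ (η / 2) := by linarith
    nlinarith
  have hN0 : (0 : ℝ) < N := by exact_mod_cast hW1
  have ha0 : (1 : ℝ) ≤ a := by exact_mod_cast ha1
  obtain ⟨Q, hQ, T, hT1, hT2, hT3⟩ := fill_up W (N * Z ^ d) (by positivity) hW1 hW3 a r
    (n - r * a * N) ha1 hr (by
      show 4 * (N : ℝ) ≤ a * (N * Z ^ d)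
      calc 4 * (N : ℝ) = 1 * (N * 4) := by ring
        _ ≤ a * (N * Z ^ d) := by gcongr)
  refine ⟨Q, by rw [hQ, ← hN]; omega, T, hT1, hT2, fun t ht s hs0 hsT => ?_⟩
  refine le_trans ?_ (hT3 t ht s hs0 hsT)
  -- the final estimate
  have hr0 : (0 : ℝ) < r := by exact_mod_cast hr
  have hx : (n : ℝ) / r ≤ 2 * n' := by
    rw [div_le_iff₀ hr0]
    have h81 := Nat.div_add_mod n r
    have h82 := Nat.mod_lt n hr
    have h83 : n ≤ 2 * n' * r := by
      rw [← hn'def] at h81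
      nlinarith
    exact_mod_cast h83
  have h5 : ((n : ℝ) / r) ^ (1 + η / 2) ≤ 2 ^ (1 + η / 2) * (n' * (n' : ℝ) ^ (η / 2)) := by
    calc ((n : ℝ) / r) ^ (1 + η / 2) ≤ (2 * n') ^ (1 + η / 2) :=
          Real.rpow_le_rpow (by positivity) hx (by positivity)
      _ = 2 ^ (1 + η / 2) * (n' : ℝ) ^ (1 + η / 2) := Real.mul_rpow (by norm_num) hn0'.le
      _ = _ := by rw [Real.rpow_add hn0' 1 (η / 2), Real.rpow_one]
  have h6 : (n' : ℝ) ≤ 2 * a * N := by exact_mod_cast haN2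
  have h7 : 2 * ((n : ℝ) / r) ^ (1 + η / 2) ≤ a * (N * Z ^ d) / 2 := by
    calc 2 * ((n : ℝ) / r) ^ (1 + η / 2) ≤ 2 * (2 ^ (1 + η / 2) * (n' * (n' : ℝ) ^ (η / 2))) := by
          gcongr
      _ = n' * (K * (n' : ℝ) ^ (η / 2)) / 4 := by rw [hK]; ring
      _ ≤ n' * Z ^ d / 4 := by gcongr
      _ ≤ (2 * a * N) * Z ^ d / 4 := by gcongr
      _ = _ := by ring
  linarith

/-- The gap theorem from the strong tower. -/
theorem gap_of_towerS (hT : TowerS) :
    ∃ ε : ℝ, 0 < ε ∧ ∃ n0 : ℕ, 1 ≤ n0 ∧ ∀ n r : ℕ, 1 ≤ r → n0 * r ≤ n →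
      ∃ Q : Finset ℂ, Q.card = n ∧ ∃ T : Finset ℝ, T.card = r ∧ (∀ t ∈ T, 0 < t) ∧
        ∀ t ∈ T, ∀ s, 0 < s → s ∉ T →
          (mult Q s : ℝ) + 2 * ((n : ℝ) / r) ^ (1 + ε) ≤ mult Q t := by
  obtain ⟨C, m, hm, hT⟩ := hT
  obtain ⟨X, Z, d0, hX, hZ, h⟩ := gap_of_field C
  refine all_of_gap_family hX hZ (m * 2 ^ d0) (by positivity) fun j => ?_
  obtain ⟨L, _, _, hr, h2, hd, hdisc⟩ := hT (d0 + j)
  have hd' : finrank ℚ L = m * 2 ^ d0 * 2 ^ j := by rw [hd, pow_add]; ring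
  have hge : d0 ≤ finrank ℚ L := by
    rw [hd']
    have h1 : d0 < 2 ^ d0 := Nat.lt_two_pow_self
    have h3 : 1 ≤ 2 ^ j := Nat.one_le_two_pow
    calc d0 ≤ 1 * 2 ^ d0 * 1 := by omega
      _ ≤ m * 2 ^ d0 * 2 ^ j := by gcongr; omega
  obtain ⟨W, hW⟩ := h L _ _ hr h2 hdisc hge
  rw [hd'] at hW
  exact ⟨W, hW⟩

end Pool.Agent.H118R2
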